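import Mathlib

set_option autoImplicit false

namespace Pool.Agent.Helper24.BNT

lemma sq_of_cop {a b c : ℕ} (h : Nat.Coprime a b) (e : a * b = c^2) :
    (∃ x, a = x^2) ∧ (∃ z, b = z^2) := by
  have hu : IsUnit (gcd a b) := by
    rw [Nat.isUnit_iff]; exact h
  have hu' : IsUnit (gcd b a) := by
    rw [Nat.isUnit_iff]; exact h.symm
  exact ⟨exists_eq_pow_of_mul_eq_pow hu e, exists_eq_pow_of_mul_eq_pow hu' (by rw [mul_comm]; exact e)⟩

/-- `a*b = □`, gcd divides a prime. -/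
lemma sq_split {a b c p : ℕ} (hp : p.Prime) (hg : Nat.gcd a b ∣ p) (e : a * b = c^2) :
    ((∃ x, a = x^2) ∧ (∃ z, b = z^2)) ∨ ((∃ x, a = p*x^2) ∧ (∃ z, b = p*z^2)) := by
  rcases (Nat.dvd_prime hp).mp hg with h1 | h1
  · left; exact sq_of_cop h1 e
  · right
    obtain ⟨a1, ha⟩ := (h1 ▸ Nat.gcd_dvd_left a b : p ∣ a)
    obtain ⟨b1, hb⟩ := (h1 ▸ Nat.gcd_dvd_right a b : p ∣ b)
    subst ha hb
    have hc : Nat.Coprime a1 b1 := by
      rw [Nat.gcd_mul_left] at h1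
      have := hp.pos
      unfold Nat.Coprime
      exact Nat.eq_of_mul_eq_mul_left this (by rw [h1, mul_one])
    have hpc : p ∣ c := by
      have : p ∣ c^2 := ⟨a1 * (p*b1), by rw [← e]; ring⟩
      exact hp.dvd_of_dvd_pow this
    obtain ⟨c1, rfl⟩ := hpc
    have e2 : a1 * b1 = c1^2 := by
      have hp2 : 0 < p*p := Nat.mul_pos hp.pos hp.pos
      apply Nat.eq_of_mul_eq_mul_left hp2
      nlinarith [e]
    obtain ⟨⟨x, hx⟩, ⟨z, hz⟩⟩ := sq_of_cop hc e2
    exact ⟨⟨x, by rw [hx]⟩, ⟨z, by rw [hz]⟩⟩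

/-- `a*b = p □`, gcd divides `p`. -/
lemma psq_split {a b c p : ℕ} (hp : p.Prime) (hg : Nat.gcd a b ∣ p) (e : a * b = p*c^2) :
    ((∃ x, a = x^2) ∧ (∃ z, b = p*z^2)) ∨ ((∃ x, a = p*x^2) ∧ (∃ z, b = z^2)) := by
  rcases (Nat.dvd_prime hp).mp hg with h1 | h1
  · have hd : p ∣ a * b := ⟨c^2, e⟩
    rcases (Nat.Prime.dvd_mul hp).mp hd with ⟨a1, ha⟩ | ⟨b1, hb⟩
    · right
      subst ha
      have e2 : a1 * b = c^2 := Nat.eq_of_mul_eq_mul_left hp.pos (by rw [← e]; ring)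
      have hc : Nat.Coprime a1 b := Nat.Coprime.coprime_mul_left h1
      obtain ⟨⟨x, hx⟩, hz⟩ := sq_of_cop hc e2
      exact ⟨⟨x, by rw [hx]⟩, hz⟩
    · left
      subst hb
      have e2 : a * b1 = c^2 := Nat.eq_of_mul_eq_mul_left hp.pos (by rw [← e]; ring)
      have hc : Nat.Coprime a b1 := Nat.Coprime.coprime_mul_left_right h1
      obtain ⟨hx, ⟨z, hz⟩⟩ := sq_of_cop hc e2
      exact ⟨hx, ⟨z, by rw [hz]⟩⟩
  · obtain ⟨a1, ha⟩ := (h1 ▸ Nat.gcd_dvd_left a b : p ∣ a)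
    obtain ⟨b1, hb⟩ := (h1 ▸ Nat.gcd_dvd_right a b : p ∣ b)
    subst ha hb
    have hc : Nat.Coprime a1 b1 := by
      rw [Nat.gcd_mul_left] at h1
      have := hp.pos
      unfold Nat.Coprime
      exact Nat.eq_of_mul_eq_mul_left this (by rw [h1, mul_one])
    have e1 : p * (a1 * b1) = c^2 := Nat.eq_of_mul_eq_mul_left hp.pos (by rw [← e]; ring)
    have hpc : p ∣ c := by
      have : p ∣ c^2 := ⟨a1 * b1, e1.symm⟩
      exact hp.dvd_of_dvd_pow this
    obtain ⟨c1, rfl⟩ := hpc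
    have e2 : a1 * b1 = p * c1^2 := Nat.eq_of_mul_eq_mul_left hp.pos (by rw [e1]; ring)
    have hd : p ∣ a1 * b1 := ⟨c1^2, e2⟩
    rcases (Nat.Prime.dvd_mul hp).mp hd with ⟨a2, ha⟩ | ⟨b2, hb⟩
    · left
      subst ha
      have e3 : a2 * b1 = c1^2 := Nat.eq_of_mul_eq_mul_left hp.pos (by rw [← e2]; ring)
      obtain ⟨⟨x, hx⟩, ⟨z, hz⟩⟩ := sq_of_cop (Nat.Coprime.coprime_mul_left hc) e3
      exact ⟨⟨p*x, by rw [hx]; ring⟩, ⟨z, by rw [hz]⟩⟩
    · right
      subst hb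
      have e3 : a1 * b2 = c1^2 := Nat.eq_of_mul_eq_mul_left hp.pos (by rw [← e2]; ring)
      obtain ⟨⟨x, hx⟩, ⟨z, hz⟩⟩ := sq_of_cop (Nat.Coprime.coprime_mul_left_right hc) e3
      exact ⟨⟨x, by rw [hx]⟩, ⟨p*z, by rw [hz]; ring⟩⟩

lemma exists_nonres {p : ℕ} (hp : p.Prime) (hp2 : p ≠ 2) : ∃ c : ℕ, jacobiSym c p = -1 := by
  haveI : Fact p.Prime := ⟨hp⟩
  obtain ⟨a, ha⟩ := FiniteField.exists_nonsquare (F := ZMod p) (by rw [ZMod.ringChar_zmod_n]; exact hp2)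
  refine ⟨a.val, ?_⟩
  rw [← jacobiSym.legendreSym.to_jacobiSym, legendreSym.eq_neg_one_iff]
  simpa using ha

theorem exists_jacobi_neg {N : ℕ} (hN : Odd N) (hs : ¬ IsSquare N) :
    ∃ m : ℕ, Odd m ∧ Nat.Coprime m N ∧ jacobiSym m N = -1 := by
  obtain ⟨a, b, hab, hsq⟩ := Nat.sq_mul_squarefree N
  have hN0 : N ≠ 0 := by rintro rfl; simp at hN
  have ha1 : a ≠ 1 := by
    rintro rfl
    exact hs ⟨b, by rw [← hab]; ring⟩
  have haodd : Odd a := by
    rw [← hab] at hN; exact (Nat.odd_mul.mp hN).2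
  have hbodd : Odd b := by
    rw [← hab] at hN; exact (Nat.Odd.of_mul_left (by rw [sq] at hN; exact (Nat.odd_mul.mp hN).1))
  obtain ⟨p, hp, hpa⟩ := Nat.exists_prime_and_dvd ha1
  have hp2 : p ≠ 2 := by
    rintro rfl
    exact (Nat.not_even_iff_odd.mpr haodd) (even_iff_two_dvd.mpr hpa)
  obtain ⟨a', ha'⟩ := hpa
  have hpa' : ¬ p ∣ a' := by
    rintro ⟨c, hc⟩
    rw [ha', hc, ← mul_assoc] at hsq
    have := (Nat.squarefree_iff_prime_squarefree.mp hsq) p hp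
    exact this ⟨c, by ring⟩
  obtain ⟨c, hc⟩ := exists_nonres hp hp2
  set K := ordCompl[p] (2*N) with hK
  have hcop : Nat.Coprime p K := Nat.coprime_ordCompl hp (by omega)
  obtain ⟨m, hm1, hm2⟩ := Nat.chineseRemainder hcop c 1
  have hcp : Nat.Coprime m p := by
    have : jacobiSym m p = -1 := by
      rw [← hc]
      apply jacobiSym.mod_left'
      exact_mod_cast hm1
    by_contra hcon
    have hz : jacobiSym m p = 0 := by
      rw [jacobiSym.eq_zero_iff]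
      exact ⟨hp.ne_zero, by simpa [Int.gcd_natCast_natCast] using hcon⟩
    rw [hz] at this; norm_num at this
  have hcK : Nat.Coprime m K := by
    have := Nat.ModEq.gcd_eq hm2
    unfold Nat.Coprime; rw [this]; simp
  have hc2N : Nat.Coprime m (2*N) := by
    rw [← Nat.ordProj_mul_ordCompl_eq_self (2*N) p]
    exact Nat.Coprime.mul_right (Nat.Coprime.pow_right _ hcp) hcK
  refine ⟨m, ?_, Nat.Coprime.coprime_mul_left_right hc2N, ?_⟩
  · have := Nat.Coprime.coprime_mul_right_right hc2N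
    exact Nat.Coprime.odd_of_right this
  · have hmN := Nat.Coprime.coprime_mul_left_right hc2N
    have e1 : N = b^2 * (p * a') := by rw [← ha', hab]
    haveI : NeZero (b^2) := ⟨by rintro h; rw [h] at hab; omega⟩
    haveI : NeZero p := ⟨hp.ne_zero⟩
    haveI : NeZero a' := ⟨by rintro rfl; rw [mul_zero] at ha'; rw [ha'] at hab; omega⟩
    haveI : NeZero (p*a') := ⟨Nat.mul_ne_zero (NeZero.ne p) (NeZero.ne a')⟩
    rw [e1, jacobiSym.mul_right, jacobiSym.mul_right, jacobiSym.pow_right]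
    have hmb : Nat.Coprime m b := Nat.Coprime.coprime_dvd_right ⟨b * a, by rw [← hab]; ring⟩ hmN
    have j1 : jacobiSym m b ^ 2 = 1 := jacobiSym.sq_one (by simpa using hmb)
    have j2 : jacobiSym m p = -1 := by
      rw [← hc]
      apply jacobiSym.mod_left'
      exact_mod_cast hm1
    have ha'K : a' ∣ K := by
      have h1 : a' ∣ 2 * N := ⟨2 * b^2 * p, by rw [e1]; ring⟩
      have h2 : Nat.Coprime a' p := ((Nat.Prime.coprime_iff_not_dvd hp).mpr hpa').symm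
      rw [← Nat.ordProj_mul_ordCompl_eq_self (2*N) p] at h1
      exact Nat.Coprime.dvd_of_dvd_mul_left (Nat.Coprime.pow_right _ h2) h1
    have j3 : jacobiSym m a' = 1 := by
      have : jacobiSym m a' = jacobiSym 1 a' := by
        apply jacobiSym.mod_left'
        have := hm2.of_dvd ha'K
        exact_mod_cast this
      rw [this, jacobiSym.one_left]
    rw [j1, j2, j3]; norm_num

end Pool.Agent.Helper24.BNT
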