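import Mathlib

set_option autoImplicit false

namespace Pool.Agent.Helper24.BSeq

/-- Chebyshev numbers of the first kind `T_n(y)`. -/
def t (y : ℤ) : ℕ → ℤ
  | 0 => 1
  | 1 => y
  | (n+2) => 2 * y * t y (n+1) - t y n

/-- `u_n = U_{n-1}(y)`. -/
def u (y : ℤ) : ℕ → ℤ
  | 0 => 0
  | 1 => 1
  | (n+2) => 2 * y * u y (n+1) - u y n

@[simp] lemma t_zero (y : ℤ) : t y 0 = 1 := rfl
@[simp] lemma t_one (y : ℤ) : t y 1 = y := rfl
lemma t_two (y : ℤ) (n : ℕ) : t y (n+2) = 2 * y * t y (n+1) - t y n := rfl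
@[simp] lemma u_zero (y : ℤ) : u y 0 = 0 := rfl
@[simp] lemma u_one (y : ℤ) : u y 1 = 1 := rfl
lemma u_two (y : ℤ) (n : ℕ) : u y (n+2) = 2 * y * u y (n+1) - u y n := rfl

lemma succ_aux (y : ℤ) (n : ℕ) :
    t y (n+1) = y * t y n + (y^2-1) * u y n ∧ u y (n+1) = t y n + y * u y n := by
  induction n with
  | zero => simp
  | succ n ih =>
    obtain ⟨h1, h2⟩ := ih
    constructor
    · rw [t_two]
      rw [h1, h2]; ring
    · rw [u_two, h1, h2]; ring

lemma t_succ (y : ℤ) (n : ℕ) : t y (n+1) = y * t y n + (y^2-1) * u y n := (succ_aux y n).1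
lemma u_succ (y : ℤ) (n : ℕ) : u y (n+1) = t y n + y * u y n := (succ_aux y n).2

lemma pell (y : ℤ) (n : ℕ) : t y n ^ 2 - (y^2-1) * u y n ^ 2 = 1 := by
  induction n with
  | zero => simp
  | succ n ih =>
    rw [t_succ, u_succ]
    linear_combination ih

lemma add_aux (y : ℤ) (m n : ℕ) :
    t y (m+n) = t y m * t y n + (y^2-1) * u y m * u y n ∧
    u y (m+n) = u y m * t y n + t y m * u y n := by
  induction n with
  | zero => simp
  | succ n ih =>
    obtain ⟨h1, h2⟩ := ih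
    rw [← add_assoc]
    constructor
    · rw [t_succ, h1, h2, t_succ, u_succ]; ring
    · rw [u_succ, h1, h2, t_succ, u_succ]; ring

lemma t_add (y : ℤ) (m n : ℕ) : t y (m+n) = t y m * t y n + (y^2-1) * u y m * u y n :=
  (add_aux y m n).1
lemma u_add (y : ℤ) (m n : ℕ) : u y (m+n) = u y m * t y n + t y m * u y n :=
  (add_aux y m n).2

lemma t_double (y : ℤ) (n : ℕ) : t y (2*n) = 2 * t y n ^ 2 - 1 := by
  rw [two_mul, t_add]; linear_combination -pell y n

lemma u_double (y : ℤ) (n : ℕ) : u y (2*n) = 2 * t y n * u y n := by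
  rw [two_mul, u_add]; ring

/-- `W_h = U_h + U_{h-1}`, that is `sin((2h+1)p)/sin p` for `y = cos 2p`. -/
def W (y : ℤ) (h : ℕ) : ℤ := t y h + (y+1) * u y h

/-- `V_h = U_h - U_{h-1}`. -/
def V (y : ℤ) (h : ℕ) : ℤ := t y h + (y-1) * u y h

@[simp] lemma W_zero (y : ℤ) : W y 0 = 1 := by simp [W]
lemma W_one (y : ℤ) : W y 1 = 2*y+1 := by simp [W]; ring
lemma W_two (y : ℤ) (n : ℕ) : W y (n+2) = 2 * y * W y (n+1) - W y n := by
  simp only [W, t_two, u_two]; ring
@[simp] lemma V_zero (y : ℤ) : V y 0 = 1 := by simp [V]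
lemma V_one (y : ℤ) : V y 1 = 2*y-1 := by simp [V]; ring

lemma W_eq (y : ℤ) (h : ℕ) : W y h = u y (h+1) + u y h := by
  rw [W, u_succ]; ring
lemma V_eq (y : ℤ) (h : ℕ) : V y h = u y (h+1) - u y h := by
  rw [V, u_succ]; ring

/-- reflection -/
lemma W_refl (y : ℤ) (l i : ℕ) : W y (l+i+i) + W y l = 2 * t y i * W y (l+i) := by
  simp only [W, t_add, u_add]
  linear_combination (-(t y l + (y+1) * u y l)) * pell y i

/-- shift by `2l+1`. -/
lemma W_shift (y : ℤ) (h l : ℕ) : W y (h+2*l+1) = W y h + 2 * t y (h+l+1) * W y l := by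
  have e1 : h + 2*l+1 = h + l + l + 1 := by ring
  rw [e1]
  simp only [W, t_add, u_add, t_one, u_one]
  linear_combination ((t y h + (y+1) * u y h)) * pell y l

lemma W_mul_V (y : ℤ) (l : ℕ) : W y l * V y l = u y (2*l+1) := by
  rw [u_add, u_double, t_double, u_one, t_one]
  simp only [W, V]
  linear_combination (-1) * pell y l

/-- `W_h V_{h-1} = 1 + u_{2h}`. -/
lemma W_mul_V' (y : ℤ) (h : ℕ) : W y (h+1) * V y h = 1 + u y (2*(h+1)) := by
  rw [u_double]
  simp only [W, V, t_succ, u_succ]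
  linear_combination pell y h

lemma W_double (y : ℤ) (g : ℕ) : W y (2*g) = 2 * t y g ^2 - 1 + 2*(y+1) * t y g * u y g := by
  simp only [W, t_double, u_double]; ring

/-- `T_{2l+1} - 1 = (y-1) W_l^2`. -/
lemma t_odd (y : ℤ) (l : ℕ) : t y (2*l+1) - 1 = (y-1) * W y l ^ 2 := by
  rw [t_add, u_double, t_double, u_one, t_one]
  simp only [W]
  linear_combination (1+y) * pell y l

/-- composition of `t`. -/
lemma t_mul (y : ℤ) (m n : ℕ) : t y (m*n) = t (t y m) n := by
  have key : ∀ n, t y (m*n) = t (t y m) n ∧ t y (m*(n+1)) = t (t y m) (n+1) := by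
    intro n
    induction n with
    | zero => simp
    | succ n ih =>
      refine ⟨ih.2, ?_⟩
      rw [t_two, ← ih.1, ← ih.2]
      have : m * (n+1+1) = m*(n+1) + m := by ring
      rw [this, t_add]
      have e2 : m * (n+1) = m*n + m := by ring
      rw [e2, t_add, u_add]
      linear_combination (-(t y (m*n))) * pell y m
  exact (key n).1

/-- composition of `W`. -/
lemma W_mul (y : ℤ) (l j : ℕ) : W y ((2*l+1)*j + l) = W y l * W (t y (2*l+1)) j := by
  have key : ∀ j, W y ((2*l+1)*j + l) = W y l * W (t y (2*l+1)) j ∧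
      W y ((2*l+1)*(j+1) + l) = W y l * W (t y (2*l+1)) (j+1) := by
    intro j
    induction j with
    | zero =>
      constructor
      · simp
      · have : (2*l+1)*(0+1)+l = l + 2*l+1 := by ring
        rw [this, W_shift]
        have e : l + l + 1 = 2*l+1 := by ring
        rw [e, zero_add, W_one]; ring
    | succ j ih =>
      refine ⟨ih.2, ?_⟩
      have h := W_refl y ((2*l+1)*j+l) (2*l+1)
      have e1 : (2*l+1)*j+l+(2*l+1)+(2*l+1) = (2*l+1)*(j+1+1)+l := by ring
      have e2 : (2*l+1)*j+l+(2*l+1) = (2*l+1)*(j+1)+l := by ring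
      rw [e1, e2, ih.1, ih.2] at h
      rw [W_two]
      linear_combination h
  exact (key j).1

lemma W_mod_sub_one (y : ℤ) (h : ℕ) : (y - 1) ∣ W y h - (2*h+1) := by
  have key : ∀ h : ℕ, (y-1) ∣ W y h - (2*h+1) ∧ (y-1) ∣ W y (h+1) - (2*(h+1:ℕ)+1) := by
    intro h
    induction h with
    | zero => 
      constructor
      · simp
      · rw [zero_add, W_one]; exact ⟨2, by push_cast; ring⟩
    | succ h ih =>
      refine ⟨ih.2, ?_⟩
      obtain ⟨a, ha⟩ := ih.1
      obtain ⟨b, hb⟩ := ih.2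
      refine ⟨2*y*b - a + 2*(2*(h+1)+1), ?_⟩
      rw [W_two]
      push_cast at *
      linear_combination (2*y) * hb - ha
  exact (key h).1

section pos
variable {y : ℤ} (hy : 1 ≤ y)
include hy

lemma tu_nonneg (n : ℕ) : 1 ≤ t y n ∧ 0 ≤ u y n := by
  induction n with
  | zero => simp
  | succ n ih =>
    obtain ⟨h1, h2⟩ := ih
    rw [t_succ, u_succ]
    have h3 : 0 ≤ y^2-1 := by nlinarith
    constructor
    · nlinarith [mul_nonneg h3 h2]
    · nlinarith

lemma t_pos (n : ℕ) : 1 ≤ t y n := (tu_nonneg hy n).1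
lemma u_nonneg (n : ℕ) : 0 ≤ u y n := (tu_nonneg hy n).2

lemma u_ge (n : ℕ) : (n:ℤ) ≤ u y n := by
  induction n with
  | zero => simp
  | succ n ih =>
    rw [u_succ]
    have := t_pos hy n
    have := u_nonneg hy n
    push_cast
    nlinarith

lemma t_ge_pow (n : ℕ) : y^n ≤ t y n := by
  induction n with
  | zero => simp
  | succ n ih =>
    rw [t_succ, pow_succ]
    have h3 : 0 ≤ y^2-1 := by nlinarith
    nlinarith [mul_nonneg h3 (u_nonneg hy n)]

lemma W_pos (n : ℕ) : 1 ≤ W y n := by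
  have := t_pos hy n
  have := u_nonneg hy n
  unfold W; nlinarith

lemma W_ge (n : ℕ) : 2*(n:ℤ)+1 ≤ W y n := by
  have := t_pos hy n
  have := u_ge hy n
  unfold W; nlinarith

lemma V_pos (n : ℕ) : 1 ≤ V y n := by
  have := t_pos hy n
  have := u_nonneg hy n
  unfold V; nlinarith

end pos

end Pool.Agent.Helper24.BSeq
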