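import Mathlib
import Pool.Agent.Helper24.BSeq
import Pool.Agent.Helper24.BNT

set_option autoImplicit false

namespace Pool.Agent.Helper24.BEven

open Pool.Agent.Helper24.BSeq Pool.Agent.Helper24.BNT

/-- natural number version -/
def w (y : ℤ) (h : ℕ) : ℕ := (W y h).toNat

lemma w_cast {y : ℤ} (hy : 1 ≤ y) (h : ℕ) : ((w y h : ℕ) : ℤ) = W y h := by
  have := W_pos hy h
  unfold w; omega

lemma W_mod4 (c : ℤ) (h : ℕ) : W (2*c) h % 4 = if h % 4 = 0 ∨ h % 4 = 1 then 1 else 3 := by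
  have key : ∀ h : ℕ, (W (2*c) h % 4 = if h % 4 = 0 ∨ h % 4 = 1 then 1 else 3) ∧
      (W (2*c) (h+1) % 4 = if (h+1) % 4 = 0 ∨ (h+1) % 4 = 1 then 1 else 3) := by
    intro h
    induction h with
    | zero =>
      constructor
      · simp
      · rw [zero_add, W_one]; simp; omega
    | succ h ih =>
      refine ⟨ih.2, ?_⟩
      have e : W (2*c) (h+1+1) = 4 * (c * W (2*c) (h+1)) - W (2*c) h := by rw [W_two]; ring
      rw [e]
      have h1 := ih.1
      generalize c * W (2*c) (h+1) = A at *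
      generalize W (2*c) h = B at *
      split_ifs at h1 ⊢ <;> omega
  exact (key h).1

/-- `W_h` is 5 mod 8 when `h = 1 mod 4` and `y = 2 mod 4`. -/
lemma W_mod8 (c : ℤ) (s : ℕ) : W (2*(2*c+1)) (4*s) % 8 = 1 ∧ W (2*(2*c+1)) (4*s+1) % 8 = 5 := by
  induction s with
  | zero =>
    constructor
    · simp
    · rw [Nat.mul_zero, zero_add, W_one]; omega
  | succ s ih =>
    set y := 2*(2*c+1) with hy
    have e1 : W y (4*s+2) = 8 * (c * W y (4*s+1)) + 4 * W y (4*s+1) - W y (4*s) := by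
      rw [show 4*s+2 = 4*s+2 from rfl, W_two, hy]; ring
    have e2 : W y (4*s+3) = 8 * (c * W y (4*s+2)) + 4 * W y (4*s+2) - W y (4*s+1) := by
      rw [show 4*s+3 = (4*s+1)+2 by ring, W_two, hy]; ring
    have e3 : W y (4*s+4) = 8 * (c * W y (4*s+3)) + 4 * W y (4*s+3) - W y (4*s+2) := by
      rw [show 4*s+4 = (4*s+2)+2 by ring, W_two, hy]; ring
    have e4 : W y (4*s+5) = 8 * (c * W y (4*s+4)) + 4 * W y (4*s+4) - W y (4*s+3) := by
      rw [show 4*s+5 = (4*s+3)+2 by ring, W_two, hy]; ring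
    rw [show 4*(s+1) = 4*s+4 by ring, show 4*s+4+1 = 4*s+5 by ring]
    obtain ⟨h1, h2⟩ := ih
    generalize c * W y (4*s+1) = A1 at *
    generalize c * W y (4*s+2) = A2 at *
    generalize c * W y (4*s+3) = A3 at *
    generalize c * W y (4*s+4) = A4 at *
    omega

lemma sq_mod {a c : ℕ} {x : ℤ} (h : (a:ℤ) ∣ (c:ℤ)^2 - x) : 0 ≤ jacobiSym x a := by
  have : jacobiSym x a = jacobiSym ((c:ℤ)^2) a := by
    apply jacobiSym.mod_left'
    exact (Int.modEq_iff_dvd.mpr h)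
  rw [this, jacobiSym.pow_left]
  positivity

lemma chi4_one {n : ℕ} (h : n % 4 = 1) : ZMod.χ₄ n = 1 := ZMod.χ₄_nat_one_mod_four h
lemma chi4_three {n : ℕ} (h : n % 4 = 3) : ZMod.χ₄ n = -1 := ZMod.χ₄_nat_three_mod_four h

section
variable {c : ℤ} (hc : 1 ≤ c)
include hc

lemma w_mod4 (h : ℕ) : w (2*c) h % 4 = if h % 4 = 0 ∨ h % 4 = 1 then 1 else 3 := by
  have h1 := W_mod4 c h
  have h2 := w_cast (y := 2*c) (by omega) h
  rw [← h2] at h1
  split_ifs at h1 ⊢ <;> omega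

lemma w_odd (h : ℕ) : Odd (w (2*c) h) := by
  have := w_mod4 hc h
  rw [Nat.odd_iff]
  split_ifs at this <;> omega

/-- if `W_h` is a square then `h = 0, 1 mod 4`. -/
lemma sq_mod4 {h : ℕ} (hs : ∃ x, w (2*c) h = x^2) : h % 4 = 0 ∨ h % 4 = 1 := by
  by_contra hn
  have h1 := w_mod4 hc h
  rw [if_neg hn] at h1
  obtain ⟨x, hx⟩ := hs
  rw [hx] at h1
  have : x % 4 < 4 := Nat.mod_lt _ (by norm_num)
  rw [Nat.pow_mod] at h1
  interval_cases x % 4 <;> simp at h1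

lemma t2_val : t (2*c) 2 = 8*c^2 - 1 := by
  rw [show (2:ℕ) = 0+2 from rfl, t_two]; simp; ring

/-- shift by 8 modulo `T_2`. -/
lemma W_shift8 (s r : ℕ) : t (2*c) 2 ∣ W (2*c) (8*s+r) - W (2*c) r := by
  induction s with
  | zero => simp
  | succ s ih =>
    have h1 := W_refl (2*c) (8*s+r) 2
    have h2 := W_refl (2*c) (8*s+r+4) 2
    rw [show 8*s+r+2+2 = 8*s+r+4 by ring] at h1
    rw [show 8*s+r+4+2+2 = 8*(s+1)+r by ring] at h2
    have : W (2*c) (8*(s+1)+r) - W (2*c) r = (W (2*c) (8*s+r) - W (2*c) r)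
      + t (2*c) 2 * (2 * W (2*c) (8*s+r+4+2) - 2 * W (2*c) (8*s+r+2)) := by
      linear_combination h2 - h1
    rw [this]
    exact dvd_add ih (Dvd.intro _ rfl)

lemma t2nat : ((8*c^2-1).toNat : ℤ) = 8*c^2-1 := by
  have : 0 < c^2 := by positivity
  omega

lemma t2mod : (8*c^2-1).toNat % 4 = 3 := by
  have : 0 < c^2 := by positivity
  omega

/-- class 1, Q = 2 -/
lemma case1a {s : ℕ} (hs : ∃ x, w (2*c) (8*s+4) = x^2) : False := by
  obtain ⟨x, hx⟩ := hs
  have h1 := W_shift8 hc s 4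
  have h2 := W_refl (2*c) 0 2
  rw [W_zero] at h2
  simp only [zero_add] at h2
  have h3 : t (2*c) 2 ∣ W (2*c) (8*s+4) - (-1) := by
    have : W (2*c) (8*s+4) - (-1) = (W (2*c) (8*s+4) - W (2*c) 4) + t (2*c) 2 * (2 * W (2*c) 2) := by
      linear_combination h2
    rw [this]; exact dvd_add h1 (Dvd.intro _ rfl)
  rw [t2_val hc, ← w_cast (by omega), hx] at h3
  rw [← t2nat hc] at h3
  push_cast at h3
  have h4 := sq_mod h3
  rw [jacobiSym.at_neg_one (by rw [Nat.odd_iff]; have := t2mod hc; omega), chi4_three (t2mod hc)] at h4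
  norm_num at h4

/-- class 3, Q = 2 -/
lemma case3a {s : ℕ} (hs : ∃ x, w (2*c) (8*s+5) = x^2) : False := by
  rcases Int.even_or_odd' c with ⟨d, hd | hd⟩
  · -- c even
    obtain ⟨x, hx⟩ := hs
    have h1 := W_shift8 hc s 5
    have h2 := W_refl (2*c) 1 2
    rw [W_one] at h2
    have h3 : t (2*c) 2 ∣ W (2*c) (8*s+5) - (-(2*(2*c)+1)) := by
      have : W (2*c) (8*s+5) - (-(2*(2*c)+1)) = (W (2*c) (8*s+5) - W (2*c) 5) + t (2*c) 2 * (2 * W (2*c) 3) := by
        have h2' : W (2*c) 5 + (2*(2*c)+1) = 2 * t (2*c) 2 * W (2*c) 3 := h2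
        linear_combination h2'
      rw [this]; exact dvd_add h1 (Dvd.intro _ rfl)
    rw [t2_val hc, ← w_cast (by omega), hx] at h3
    rw [← t2nat hc] at h3
    push_cast at h3
    have h4 := sq_mod h3
    have hodd : Odd (8*c^2-1).toNat := by rw [Nat.odd_iff]; have := t2mod hc; omega
    rw [jacobiSym.neg _ hodd, chi4_three (t2mod hc)] at h4
    -- J(4c+1 | 8c^2-1) = 1
    have hM : (((4*c+1).toNat : ℕ) : ℤ) = 4*c+1 := by omega
    have hM4 : (4*c+1).toNat % 4 = 1 := by omega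
    have hM8 : (4*c+1).toNat % 8 = 1 := by omega
    have hMo : Odd (4*c+1).toNat := by rw [Nat.odd_iff]; omega
    have h5 : jacobiSym (2*(2*c)+1) (8*c^2-1).toNat = jacobiSym (8*c^2-1) (4*c+1).toNat := by
      have := jacobiSym.quadratic_reciprocity_one_mod_four hM4 hodd
      rw [hM, t2nat hc] at this
      rw [← this]; congr 1; ring
    have h6 : jacobiSym (2 * (8*c^2-1)) (4*c+1).toNat = jacobiSym (-1) (4*c+1).toNat := by
      apply jacobiSym.mod_left'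
      rw [hM]
      have : 2 * (8*c^2-1) = -1 + (4*c+1) * (4*c-1) := by ring
      rw [this, Int.add_mul_emod_self_left]
    rw [jacobiSym.mul_left, jacobiSym.at_two hMo, jacobiSym.at_neg_one hMo, chi4_one hM4] at h6
    have h7 : ZMod.χ₈ ((4*c+1).toNat : ZMod 8) = 1 := by
      rw [ZMod.χ₈_nat_mod_eight, hM8]; rfl
    rw [h7, one_mul] at h6
    rw [h5, h6] at h4
    norm_num at h4
  · obtain ⟨x, hx⟩ := hs
    have h1 := (W_mod8 d (2*s+1)).2
    rw [← hd, show 4*(2*s+1)+1 = 8*s+5 by ring, ← w_cast (by omega), hx] at h1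
    push_cast at h1
    have h8 : (x:ℤ)^2 % 8 = 5 := h1
    have : (x:ℤ) % 8 = 0 ∨ (x:ℤ) % 8 = 1 ∨ (x:ℤ) % 8 = 2 ∨ (x:ℤ) % 8 = 3 ∨ (x:ℤ) % 8 = 4 ∨ (x:ℤ) % 8 = 5 ∨ (x:ℤ) % 8 = 6 ∨ (x:ℤ) % 8 = 7 := by omega
    rcases this with h | h | h | h | h | h | h | h <;> simp [sq, Int.mul_emod, h] at h8

/-- reciprocity when one of the two is 1 mod 4 -/
lemma recip {a b : ℕ} (ha : Odd a) (hb : Odd b) (h : a % 4 = 1 ∨ b % 4 = 1) :
    jacobiSym a b = jacobiSym b a := by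
  rcases h with h | h
  · exact jacobiSym.quadratic_reciprocity_one_mod_four h hb
  · exact jacobiSym.quadratic_reciprocity_one_mod_four' ha h

/-- the chain sequence `Z_i = W_{2t i}` modulo 4. -/
lemma z_mod4 (s i : ℕ) : w (2*c) (2*(2*s+1)*i) % 4 = if i % 2 = 0 then 1 else 3 := by
  rw [w_mod4 hc]
  have e : (2*(2*s+1)*i) % 4 = 2 * (i % 2) := by
    have : 2*(2*s+1)*i = 4*(s*i) + 2*i := by ring
    omega
  rw [e]
  rcases Nat.mod_two_eq_zero_or_one i with h | h <;> simp [h]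

lemma z_step {y : ℤ} (hy : 1 ≤ y) (τ i m : ℕ) (hw : w y (τ*(i+m)) % 2 = 1) :
    jacobiSym (W y (τ*(i+m+m))) (w y (τ*(i+m))) =
      ZMod.χ₄ (w y (τ*(i+m))) * jacobiSym (W y (τ*i)) (w y (τ*(i+m))) := by
  rw [← jacobiSym.neg _ (Nat.odd_iff.mpr hw)]
  apply jacobiSym.mod_left'
  rw [w_cast hy]
  have h := W_refl y (τ*i) (τ*m)
  rw [show τ*i+τ*m+τ*m = τ*(i+m+m) by ring, show τ*i+τ*m = τ*(i+m) by ring] at h
  have e : W y (τ*(i+m+m)) = -W y (τ*i) + W y (τ*(i+m)) * (2 * t y (τ*m)) := by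
    linear_combination h
  rw [e, Int.add_mul_emod_self_left]

/-- chain with step one -/
theorem chain1 (s i : ℕ) : jacobiSym (W (2*c) (2*(2*s+1)*(i+1))) (w (2*c) (2*(2*s+1)*i)) =
    if i % 4 = 0 ∨ i % 4 = 3 then 1 else -1 := by
  have hy : (1:ℤ) ≤ 2*c := by omega
  induction i with
  | zero => simp [w]
  | succ i ih =>
    have hm := z_mod4 hc s (i+1)
    have hm' := z_mod4 hc s i
    have h1 := z_step hc hy (2*(2*s+1)) i 1 (by rw [Nat.odd_iff.mp (w_odd hc _)])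
    rw [show i + 1 + 1 = i+1+1 from rfl] at h1
    rw [h1]
    have h2 : jacobiSym (W (2*c) (2*(2*s+1)*i)) (w (2*c) (2*(2*s+1)*(i+1))) =
        jacobiSym (W (2*c) (2*(2*s+1)*(i+1))) (w (2*c) (2*(2*s+1)*i)) := by
      rw [← w_cast hy, ← w_cast hy]
      apply recip hc (w_odd hc _) (w_odd hc _)
      rw [hm, hm']
      rcases Nat.mod_two_eq_zero_or_one i with h | h
      · left; simp [h]
      · right; rw [if_pos]; omega
    rw [h2, ih]
    rcases Nat.mod_two_eq_zero_or_one i with h | h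
    · have h3 : (i+1) % 2 = 1 := by omega
      rw [h3] at hm; simp only [one_ne_zero, if_false] at hm
      rw [chi4_three hm]
      rcases (show i % 4 = 0 ∨ i % 4 = 2 by omega) with h4 | h4
      · have : (i+1) % 4 = 1 := by omega
        rw [h4, this]; norm_num
      · have : (i+1) % 4 = 3 := by omega
        rw [h4, this]; norm_num
    · have h3 : (i+1) % 2 = 0 := by omega
      rw [h3] at hm; simp only [if_true] at hm
      rw [chi4_one hm]
      rcases (show i % 4 = 1 ∨ i % 4 = 3 by omega) with h4 | h4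
      · have : (i+1) % 4 = 2 := by omega
        rw [h4, this]; norm_num
      · have : (i+1) % 4 = 0 := by omega
        rw [h4, this]; norm_num

lemma sq_nonneg_jac {h : ℕ} (hs : ∃ x, w (2*c) h = x^2) (a : ℕ) : 0 ≤ jacobiSym (W (2*c) h) a := by
  have hy : (1:ℤ) ≤ 2*c := by omega
  obtain ⟨x, hx⟩ := hs
  rw [← w_cast hy, hx]
  push_cast
  rw [jacobiSym.pow_left]; positivity

/-- shifting the numerator index by `2l+1`. -/
lemma jac_shift {y : ℤ} (hy : 1 ≤ y) (h l : ℕ) :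
    jacobiSym (W y (h+2*l+1)) (w y l) = jacobiSym (W y h) (w y l) := by
  apply jacobiSym.mod_left'
  rw [w_cast hy, W_shift]
  rw [show W y h + 2 * t y (h+l+1) * W y l = W y h + W y l * (2 * t y (h+l+1)) by ring,
    Int.add_mul_emod_self_left]

/-- class 3, `Q ≥ 4`. -/
theorem case3b {s Q : ℕ} (hQ : (Q % 3 = 1 ∧ Q % 4 = 0) ∨ (Q % 3 = 2 ∧ Q % 8 = 0))
    (hs : ∃ x, w (2*c) (2*(2*s+1)*Q+1) = x^2) : False := by
  have hy : (1:ℤ) ≤ 2*c := by omega
  rcases hQ with ⟨h1, h2⟩ | ⟨h1, h2⟩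
  · obtain ⟨I, hI⟩ : ∃ I, Q = 3*I+1 := ⟨Q/3, by omega⟩
    have h3 := sq_nonneg_jac hc hs (w (2*c) (2*(2*s+1)*I))
    have e : 2*(2*s+1)*Q+1 = 2*(2*s+1)*(I+1) + 2*(2*(2*s+1)*I) + 1 := by rw [hI]; ring
    rw [e, jac_shift hc hy, chain1 hc, if_neg (by omega)] at h3
    norm_num at h3
  · obtain ⟨I, hI⟩ : ∃ I, Q = 3*I+2 := ⟨Q/3, by omega⟩
    -- here the index is `I+1`
    have h3 := sq_nonneg_jac hc hs (w (2*c) (2*(2*s+1)*(I+1)))
    have e : 2*(2*s+1)*Q+1 = 2*(2*s+1)*I + 2*(2*(2*s+1)*(I+1)) + 1 := by rw [hI]; ring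
    rw [e, jac_shift hc hy] at h3
    have h4 : jacobiSym (W (2*c) (2*(2*s+1)*I)) (w (2*c) (2*(2*s+1)*(I+1))) =
        jacobiSym (W (2*c) (2*(2*s+1)*(I+1))) (w (2*c) (2*(2*s+1)*I)) := by
      rw [← w_cast hy, ← w_cast hy]
      apply recip hc (w_odd hc _) (w_odd hc _)
      rw [z_mod4 hc, z_mod4 hc]
      rcases Nat.mod_two_eq_zero_or_one I with h | h
      · left; simp [h]
      · right; rw [if_pos]; omega
    rw [h4, chain1 hc, if_neg (by omega)] at h3
    norm_num at h3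

/-- `J(W_1 | W_m) = 1` when `m ≠ 1 mod 3`. -/
lemma jac_W1 {m : ℕ} (hm : m % 3 ≠ 1) : jacobiSym (W (2*c) 1) (w (2*c) m) = 1 := by
  have hy : (1:ℤ) ≤ 2*c := by omega
  have h1 : w (2*c) 1 % 4 = 1 := by rw [w_mod4 hc]; simp
  have h2 : jacobiSym (W (2*c) 1) (w (2*c) m) = jacobiSym (W (2*c) m) (w (2*c) 1) := by
    rw [← w_cast hy, ← w_cast hy]
    exact recip hc (w_odd hc _) (w_odd hc _) (Or.inl h1)
  rw [h2]
  have h3 : ∀ k r : ℕ, jacobiSym (W (2*c) (3*k+r)) (w (2*c) 1) = jacobiSym (W (2*c) r) (w (2*c) 1) := by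
    intro k r
    induction k with
    | zero => simp
    | succ k ih =>
      rw [show 3*(k+1)+r = (3*k+r)+2*1+1 by ring, jac_shift hc hy (3*k+r) 1, ih]
  rcases (show m % 3 = 0 ∨ m % 3 = 2 by omega) with h | h
  · have : m = 3*(m/3)+0 := by omega
    rw [this, h3, W_zero, jacobiSym.one_left]
  · have : m = 3*(m/3)+2 := by omega
    rw [this, h3]
    have e : jacobiSym (W (2*c) 2) (w (2*c) 1) = jacobiSym (-1) (w (2*c) 1) := by
      apply jacobiSym.mod_left'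
      rw [w_cast hy]
      have := W_two (2*c) 0
      rw [W_zero] at this
      rw [show W (2*c) 2 = -1 + W (2*c) 1 * (2*(2*c)) by
        have h9 : W (2*c) 2 = 2 * (2*c) * W (2*c) 1 - 1 := this
        linear_combination h9]
      rw [Int.add_mul_emod_self_left]
    rw [e, jacobiSym.at_neg_one (w_odd hc _), chi4_one h1]

/-- step three chain, residue class one. -/
theorem chain3a {s : ℕ} (hs3 : (2*(2*s+1)) % 3 ≠ 1) (v : ℕ) :
    jacobiSym (W (2*c) (2*(2*s+1)*(3*v+4))) (w (2*c) (2*(2*s+1)*(3*v+1))) =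
    if v % 4 = 0 ∨ v % 4 = 1 then -1 else 1 := by
  have hy : (1:ℤ) ≤ 2*c := by omega
  induction v with
  | zero =>
    simp only [Nat.zero_mod, true_or, if_true]
    rw [show 2*(2*s+1)*(3*0+4) = (4*(2*s+1)-1) + 2*(2*(2*s+1)) + 1 by omega,
      show 2*(2*s+1)*(3*0+1) = 2*(2*s+1) by ring, jac_shift hc hy]
    have h1 : jacobiSym (W (2*c) (4*(2*s+1)-1)) (w (2*c) (2*(2*s+1))) =
        jacobiSym (- W (2*c) 1) (w (2*c) (2*(2*s+1))) := by
      apply jacobiSym.mod_left'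
      rw [w_cast hy]
      have h := W_refl (2*c) 1 (2*(2*s+1)-1)
      rw [show 1 + (2*(2*s+1)-1) + (2*(2*s+1)-1) = 4*(2*s+1)-1 by omega,
        show 1 + (2*(2*s+1)-1) = 2*(2*s+1) by omega] at h
      rw [show W (2*c) (4*(2*s+1)-1) = - W (2*c) 1 + W (2*c) (2*(2*s+1)) * (2 * t (2*c) (2*(2*s+1)-1)) by
        linear_combination h, Int.add_mul_emod_self_left]
    have h4 : w (2*c) (2*(2*s+1)) % 4 = 3 := by
      have := z_mod4 hc s 1
      rw [mul_one] at this; simpa using this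
    rw [h1, jacobiSym.neg _ (w_odd hc _), chi4_three h4, jac_W1 hc hs3]
    norm_num
  | succ v ih =>
    have hm := z_mod4 hc s (3*v+4)
    have hm' := z_mod4 hc s (3*v+1)
    have h1 := z_step hc hy (2*(2*s+1)) (3*v+1) 3 (by rw [Nat.odd_iff.mp (w_odd hc _)])
    rw [show 3*v+1+3 = 3*v+4 by ring, show 3*v+4+3 = 3*(v+1)+4 by ring] at h1
    rw [show 3*(v+1)+1 = 3*v+4 by ring, h1]
    have h2 : jacobiSym (W (2*c) (2*(2*s+1)*(3*v+1))) (w (2*c) (2*(2*s+1)*(3*v+4))) =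
        jacobiSym (W (2*c) (2*(2*s+1)*(3*v+4))) (w (2*c) (2*(2*s+1)*(3*v+1))) := by
      rw [← w_cast hy, ← w_cast hy]
      apply recip hc (w_odd hc _) (w_odd hc _)
      rw [hm, hm']
      rcases Nat.mod_two_eq_zero_or_one v with h | h
      · right; rw [if_pos]; omega
      · left; rw [if_pos]; omega
    rw [h2, ih]
    rcases Nat.mod_two_eq_zero_or_one v with h | h
    · have h3 : (3*v+4) % 2 = 0 := by omega
      rw [h3] at hm; simp only [if_true] at hm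
      rw [chi4_one hm]
      rcases (show v % 4 = 0 ∨ v % 4 = 2 by omega) with h4 | h4
      · have : (v+1) % 4 = 1 := by omega
        rw [h4, this]; norm_num
      · have : (v+1) % 4 = 3 := by omega
        rw [h4, this]; norm_num
    · have h3 : (3*v+4) % 2 = 1 := by omega
      rw [h3] at hm; simp only [one_ne_zero, if_false] at hm
      rw [chi4_three hm]
      rcases (show v % 4 = 1 ∨ v % 4 = 3 by omega) with h4 | h4
      · have : (v+1) % 4 = 2 := by omega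
        rw [h4, this]; norm_num
      · have : (v+1) % 4 = 0 := by omega
        rw [h4, this]; norm_num

/-- step three chain, residue class two. -/
theorem chain3b {s : ℕ} (hs3 : (2*(2*s+1)) % 3 ≠ 2) (v : ℕ) :
    jacobiSym (W (2*c) (2*(2*s+1)*(3*v+5))) (w (2*c) (2*(2*s+1)*(3*v+2))) =
    if v % 4 = 0 ∨ v % 4 = 3 then 1 else -1 := by
  have hy : (1:ℤ) ≤ 2*c := by omega
  induction v with
  | zero =>
    simp only [Nat.zero_mod, true_or, if_true]
    rw [show 2*(2*s+1)*(3*0+5) = (2*(2*s+1)-1) + 2*(4*(2*s+1)) + 1 by omega,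
      show 2*(2*s+1)*(3*0+2) = 4*(2*s+1) by ring, jac_shift hc hy]
    have h4 : w (2*c) (4*(2*s+1)) % 4 = 1 := by
      have := z_mod4 hc s 2
      rw [show 2*(2*s+1)*2 = 4*(2*s+1) by ring] at this; simpa using this
    have h2 : jacobiSym (W (2*c) (2*(2*s+1)-1)) (w (2*c) (4*(2*s+1))) =
        jacobiSym (W (2*c) (4*(2*s+1))) (w (2*c) (2*(2*s+1)-1)) := by
      rw [← w_cast hy, ← w_cast hy]
      exact recip hc (w_odd hc _) (w_odd hc _) (Or.inr h4)
    rw [h2, show 4*(2*s+1) = 1 + 2*(2*(2*s+1)-1) + 1 by omega, jac_shift hc hy]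
    exact jac_W1 hc (by omega)
  | succ v ih =>
    have hm := z_mod4 hc s (3*v+5)
    have hm' := z_mod4 hc s (3*v+2)
    have h1 := z_step hc hy (2*(2*s+1)) (3*v+2) 3 (by rw [Nat.odd_iff.mp (w_odd hc _)])
    rw [show 3*v+2+3 = 3*v+5 by ring, show 3*v+5+3 = 3*(v+1)+5 by ring] at h1
    rw [show 3*(v+1)+2 = 3*v+5 by ring, h1]
    have h2 : jacobiSym (W (2*c) (2*(2*s+1)*(3*v+2))) (w (2*c) (2*(2*s+1)*(3*v+5))) =
        jacobiSym (W (2*c) (2*(2*s+1)*(3*v+5))) (w (2*c) (2*(2*s+1)*(3*v+2))) := by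
      rw [← w_cast hy, ← w_cast hy]
      apply recip hc (w_odd hc _) (w_odd hc _)
      rw [hm, hm']
      rcases Nat.mod_two_eq_zero_or_one v with h | h
      · left; rw [if_pos]; omega
      · right; rw [if_pos]; omega
    rw [h2, ih]
    rcases Nat.mod_two_eq_zero_or_one v with h | h
    · have h3 : (3*v+5) % 2 = 1 := by omega
      rw [h3] at hm; simp only [one_ne_zero, if_false] at hm
      rw [chi4_three hm]
      rcases (show v % 4 = 0 ∨ v % 4 = 2 by omega) with h4 | h4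
      · have : (v+1) % 4 = 1 := by omega
        rw [h4, this]; norm_num
      · have : (v+1) % 4 = 3 := by omega
        rw [h4, this]; norm_num
    · have h3 : (3*v+5) % 2 = 0 := by omega
      rw [h3] at hm; simp only [if_true] at hm
      rw [chi4_one hm]
      rcases (show v % 4 = 1 ∨ v % 4 = 3 by omega) with h4 | h4
      · have : (v+1) % 4 = 2 := by omega
        rw [h4, this]; norm_num
      · have : (v+1) % 4 = 0 := by omega
        rw [h4, this]; norm_num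

/-- class 1, `Q ≥ 4`, `3 ∤ n`. -/
theorem case1b {s Q : ℕ} (hQ : (Q % 3 = 1 ∧ Q % 4 = 0) ∨ (Q % 3 = 2 ∧ Q % 8 = 0))
    (h3 : (2*(2*(2*s+1)*Q)+1) % 3 ≠ 0)
    (hs : ∃ x, w (2*c) (2*(2*s+1)*Q) = x^2) : False := by
  rcases hQ with ⟨h1, h2⟩ | ⟨h1, h2⟩
  · obtain ⟨v, hv⟩ : ∃ v, Q = 3*v+4 := ⟨(Q-4)/3, by omega⟩
    have h4 := sq_nonneg_jac hc hs (w (2*c) (2*(2*s+1)*(3*v+1)))
    have hs3 : (2*(2*s+1)) % 3 ≠ 1 := by
      intro h
      apply h3
      rw [Nat.add_mod, Nat.mul_mod, Nat.mul_mod (2*(2*s+1)) Q, h, h1]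
    rw [hv, chain3a hc hs3, if_pos (by omega)] at h4
    norm_num at h4
  · obtain ⟨v, hv⟩ : ∃ v, Q = 3*v+5 := ⟨(Q-5)/3, by omega⟩
    have h4 := sq_nonneg_jac hc hs (w (2*c) (2*(2*s+1)*(3*v+2)))
    have hs3 : (2*(2*s+1)) % 3 ≠ 2 := by
      intro h
      apply h3
      rw [Nat.add_mod, Nat.mul_mod, Nat.mul_mod (2*(2*s+1)) Q, h, h1]
    rw [hv, chain3b hc hs3, if_neg (by omega)] at h4
    norm_num at h4

end

end Pool.Agent.Helper24.BEven
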