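import Mathlib
import Pool.Agent.Helper24.BSeq
import Pool.Agent.Helper24.BNT
import Pool.Agent.Helper24.BEven

set_option autoImplicit false

namespace Pool.Agent.Helper24.BEven2

open Pool.Agent.Helper24.BSeq Pool.Agent.Helper24.BNT Pool.Agent.Helper24.BEven

lemma w_mul {y : ℤ} (hy : 1 ≤ y) (l j : ℕ) :
    w y ((2*l+1)*j + l) = w y l * w (t y (2*l+1)) j := by
  have h := W_mul y l j
  rw [← w_cast hy, ← w_cast hy, ← w_cast (t_pos hy _)] at h
  exact_mod_cast h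

lemma gcd_dvd {y : ℤ} (hy : 1 ≤ y) (l q : ℕ) :
    Nat.gcd (w y l) (w (t y (2*l+1)) q) ∣ (2*q+1) := by
  have hY : (1:ℤ) ≤ t y (2*l+1) := t_pos hy _
  rw [← Int.natCast_dvd_natCast]
  set d : ℤ := ((Nat.gcd (w y l) (w (t y (2*l+1)) q) : ℕ) : ℤ) with hd
  have h1 : d ∣ W y l := by
    rw [← w_cast hy]; exact Int.natCast_dvd_natCast.mpr (Nat.gcd_dvd_left _ _)
  have h2 : d ∣ W (t y (2*l+1)) q := by
    rw [← w_cast hY]; exact Int.natCast_dvd_natCast.mpr (Nat.gcd_dvd_right _ _)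
  have h3 : d ∣ t y (2*l+1) - 1 := by
    rw [t_odd]
    have : d ∣ W y l ^ 2 := by rw [sq]; exact h1.mul_right _
    exact this.mul_left _
  have h4 := h3.trans (W_mod_sub_one (t y (2*l+1)) q)
  have h5 := dvd_sub h2 h4
  have : (W (t y (2 * l + 1)) q - (W (t y (2 * l + 1)) q - (2 * (q:ℤ) + 1))) = ((2*q+1:ℕ):ℤ) := by
    push_cast; ring
  rwa [this] at h5

lemma t_even (c : ℤ) (l : ℕ) : (2:ℤ) ∣ t (2*c) (2*l+1) := by
  induction l with
  | zero => simp
  | succ l ih =>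
    rw [show 2*(l+1)+1 = (2*l+1)+2 by ring, t_two]
    obtain ⟨d, hd⟩ := ih
    exact ⟨2*c*t (2*c) (2*l+1+1) - d, by rw [hd]; ring⟩

lemma pow2_cases {a : ℕ} (ha : 2 ≤ a) :
    (2^a % 3 = 1 ∧ 2^a % 4 = 0) ∨ (2^a % 3 = 2 ∧ 2^a % 8 = 0) := by
  rcases Nat.even_or_odd' a with ⟨k, hk | hk⟩
  · left
    constructor
    · rw [hk, pow_mul, Nat.pow_mod]; norm_num
    · obtain ⟨m, rfl⟩ : ∃ m, a = m + 2 := ⟨a-2, by omega⟩
      rw [pow_add]; norm_num
  · right
    constructor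
    · rw [hk, pow_add, pow_mul, Nat.mul_mod, Nat.pow_mod]; norm_num
    · obtain ⟨m, rfl⟩ : ∃ m, a = m + 3 := ⟨a-3, by omega⟩
      rw [pow_add]; norm_num

lemma decomp {n : ℕ} (hn : n ≠ 0) (h4 : n % 4 = 0) : ∃ a s : ℕ, 1 ≤ a ∧ n = 2*(2*s+1)*2^a := by
  obtain ⟨k, m, ⟨s, hs⟩, hk⟩ := Nat.exists_eq_two_pow_mul_odd hn
  have hk2 : 2 ≤ k := by
    by_contra hlt
    have : k = 0 ∨ k = 1 := by omega
    rcases this with h | h
    · subst h; rw [hk, hs] at h4; omega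
    · subst h; rw [hk, hs] at h4; omega
  obtain ⟨a, rfl⟩ : ∃ a, k = a + 1 := ⟨k-1, by omega⟩
  exact ⟨a, s, by omega, by rw [hk, hs, pow_succ]; ring⟩

theorem even_main {c : ℤ} (hc : 1 ≤ c) {h : ℕ} (hh : 2 ≤ h) (hs : ∃ x, w (2*c) h = x^2) : False := by
  have hy : (1:ℤ) ≤ 2*c := by omega
  rcases sq_mod4 hc hs with h4 | h4
  · obtain ⟨a, s, ha, hn⟩ := decomp (by omega) h4
    rcases Nat.lt_or_ge a 2 with ha2 | ha2
    · have : a = 1 := by omega
      subst this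
      have e : h = 8*s+4 := by rw [hn]; ring
      rw [e] at hs
      exact case1a hc hs
    · by_cases h3 : (2*h+1) % 3 = 0
      · obtain ⟨l, hl⟩ : ∃ l, h = 3*l+1 := ⟨h/3, by omega⟩
        have h8 : h % 8 = 0 := by
          obtain ⟨m, rfl⟩ : ∃ m, a = m + 2 := ⟨a-2, by omega⟩
          have : h = 8 * ((2*s+1) * 2^m) := by rw [hn, pow_add]; ring
          omega
        obtain ⟨x, hx⟩ := hs
        have e : h = (2*l+1)*1+l := by rw [hl]; ring
        rw [e, w_mul hy] at hx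
        have hg := gcd_dvd hy l 1
        rcases sq_split Nat.prime_three hg hx with ⟨h1, -⟩ | ⟨-, ⟨z, hz⟩⟩
        · have e2 : l = 8*(l/8)+5 := by omega
          rw [e2] at h1
          exact case3a hc h1
        · have h5 : ((w (t (2*c) (2*l+1)) 1 : ℕ) : ℤ) = 2 * t (2*c) (2*l+1) + 1 := by
            rw [w_cast (t_pos hy _), W_one]
          obtain ⟨d, hd⟩ := t_even c l
          rw [hz, hd] at h5
          push_cast at h5
          have h6 : (z:ℤ)^2 % 4 = 0 ∨ (z:ℤ)^2 % 4 = 1 := by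
            have : (z:ℤ) % 4 = 0 ∨ (z:ℤ) % 4 = 1 ∨ (z:ℤ) % 4 = 2 ∨ (z:ℤ) % 4 = 3 := by omega
            rcases this with h | h | h | h <;> simp [sq, Int.mul_emod, h]
          omega
      · rw [hn] at hs h3
        exact case1b hc (pow2_cases ha2) h3 hs
  · obtain ⟨a, s, ha, hn⟩ := decomp (n := h-1) (by omega) (by omega)
    rcases Nat.lt_or_ge a 2 with ha2 | ha2
    · have : a = 1 := by omega
      subst this
      have e : h = 8*s+5 := by omega
      rw [e] at hs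
      exact case3a hc hs
    · have e : h = 2*(2*s+1)*2^a + 1 := by omega
      rw [e] at hs
      exact case3b hc (pow2_cases ha2) hs

end Pool.Agent.Helper24.BEven2
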