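import Mathlib
import Pool.Agent.Helper24.BSeq

set_option autoImplicit false

namespace Pool.Agent.Helper24.BOdd

open Pool.Agent.Helper24.BSeq

lemma W_mod4_odd (b : ℤ) (h : ℕ) : (4:ℤ) ∣ W (2*b+1) h - (2*h+1) := by
  have key : ∀ h : ℕ, (4:ℤ) ∣ W (2*b+1) h - (2*h+1) ∧
      (4:ℤ) ∣ W (2*b+1) (h+1) - (2*(h+1:ℕ)+1) := by
    intro h
    induction h with
    | zero =>
      constructor
      · simp
      · rw [zero_add, W_one]; exact ⟨b, by push_cast; ring⟩
    | succ h ih =>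
      refine ⟨ih.2, ?_⟩
      obtain ⟨c, hc⟩ := ih.1
      obtain ⟨d, hd⟩ := ih.2
      refine ⟨(4*b+2)*d - c + b*(2*(h+1)+1), ?_⟩
      rw [W_two]
      push_cast at *
      linear_combination (4*b+2) * hd - hc
  exact (key h).1

/-- natural number version -/
def w (y : ℤ) (h : ℕ) : ℕ := (W y h).toNat

lemma w_cast {y : ℤ} (hy : 1 ≤ y) (h : ℕ) : ((w y h : ℕ) : ℤ) = W y h := by
  have := W_pos hy h
  unfold w; omega

lemma w_mod4 {b : ℤ} (hb : 0 ≤ b) (h : ℕ) : w (2*b+1) h % 4 = (2*h+1) % 4 := by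
  have h1 := w_cast (y := 2*b+1) (by omega) h
  have h2 := W_mod4_odd b h
  omega

lemma w_odd {b : ℤ} (hb : 0 ≤ b) (h : ℕ) : Odd (w (2*b+1) h) := by
  have := w_mod4 hb h
  rw [Nat.odd_iff]; omega

lemma w_zero (y : ℤ) : w y 0 = 1 := by simp [w]

open jacobiSym in
lemma red {b : ℤ} (hb : 0 ≤ b) (i j : ℕ) (hij : j < i) :
    ∃ h, h < i ∧ (h = i - (2*j+1) ∨ h = 2*j - i) ∧ 
    ((jacobiSym (W (2*b+1) h) (w (2*b+1) j) = jacobiSym (2*h+1) (2*j+1) →
     jacobiSym (W (2*b+1) i) (w (2*b+1) j) = jacobiSym (2*i+1) (2*j+1))) := by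
  have hy : (1:ℤ) ≤ 2*b+1 := by omega
  rcases le_or_gt (2*j+1) i with h1 | h1
  · obtain ⟨h, rfl⟩ := Nat.exists_eq_add_of_le h1
    refine ⟨h, by omega, Or.inl (by omega), ?_⟩
    intro hyp
    have e1 : jacobiSym (W (2*b+1) (2*j+1+h)) (w (2*b+1) j) = jacobiSym (W (2*b+1) h) (w (2*b+1) j) := by
      apply jacobiSym.mod_left'
      rw [w_cast hy]
      have := W_shift (2*b+1) h j
      rw [show 2*j+1+h = h+2*j+1 by ring, this]
      simp [Int.add_emod, Int.mul_emod]
    have e2 : jacobiSym (2*((2*j+1+h : ℕ):ℤ)+1) (2*j+1) = jacobiSym (2*(h:ℤ)+1) (2*j+1) := by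
      apply jacobiSym.mod_left'
      have : (2*((2*j+1+h : ℕ):ℤ)+1) = (2*(h:ℤ)+1) + ((2*j+1:ℕ):ℤ) * 2 := by push_cast; ring
      rw [this, Int.add_mul_emod_self_left]
    rw [e1, e2, hyp]
  · obtain ⟨h, hh⟩ := Nat.exists_eq_add_of_le (show i ≤ 2*j by omega)
    refine ⟨h, by omega, Or.inr (by omega), ?_⟩
    intro hyp
    have e1 : jacobiSym (W (2*b+1) i) (w (2*b+1) j) = jacobiSym (- W (2*b+1) h) (w (2*b+1) j) := by
      apply jacobiSym.mod_left'
      rw [w_cast hy]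
      have := W_refl (2*b+1) h (i-j)
      rw [show h+(i-j)+(i-j) = i by omega, show h + (i-j) = j by omega] at this
      have e : W (2*b+1) i = - W (2*b+1) h + W (2*b+1) j * (2 * t (2*b+1) (i-j)) := by
        linear_combination this
      rw [e, Int.add_mul_emod_self_left]
    have e2 : jacobiSym (2*(i:ℤ)+1) (2*j+1) = jacobiSym (-(2*(h:ℤ)+1)) (2*j+1) := by
      apply jacobiSym.mod_left'
      have : (2*(i:ℤ)+1) = -(2*(h:ℤ)+1) + ((2*j+1:ℕ):ℤ) * 2 := by push_cast; omega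
      rw [this, Int.add_mul_emod_self_left]
    have e3 : (((w (2*b+1) j : ℕ)) : ZMod 4) = ((2*j+1 : ℕ) : ZMod 4) := by
      rw [ZMod.natCast_eq_natCast_iff']
      exact w_mod4 hb j
    rw [e1, e2, jacobiSym.neg _ (w_odd hb j), jacobiSym.neg _ (⟨j, rfl⟩ : Odd (2*j+1)), hyp, e3]

theorem jac {b : ℤ} (hb : 0 ≤ b) : ∀ s i j : ℕ, i + j = s →
    jacobiSym (W (2*b+1) i) (w (2*b+1) j) = jacobiSym (2*i+1) (2*j+1) := by
  intro s
  induction s using Nat.strong_induction_on with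
  | _ s ih =>
    have hy : (1:ℤ) ≤ 2*b+1 := by omega
    have key : ∀ i j : ℕ, i + j = s → j < i →
        jacobiSym (W (2*b+1) i) (w (2*b+1) j) = jacobiSym (2*i+1) (2*j+1) := by
      intro i j hs hij
      obtain ⟨h, hh, _, hr⟩ := red hb i j hij
      exact hr (ih (h+j) (by omega) h j rfl)
    intro i j hs
    rcases lt_trichotomy i j with hlt | heq | hgt
    · have h1 := key j i (by omega) hlt
      have r1 := jacobiSym.quadratic_reciprocity_if (a := w (2*b+1) i) (b := w (2*b+1) j)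
        (Nat.odd_iff.mp (w_odd hb i)) (Nat.odd_iff.mp (w_odd hb j))
      have r2 := jacobiSym.quadratic_reciprocity_if (a := 2*i+1) (b := 2*j+1)
        (by omega) (by omega)
      rw [w_cast hy, w_cast hy] at r1
      rw [w_mod4 hb, w_mod4 hb] at r1
      push_cast at r2
      rw [← r1, ← r2, h1]
    · subst heq
      rcases Nat.eq_zero_or_pos i with h0 | h0
      · subst h0; simp [w_zero]
      · have g1 : jacobiSym (W (2*b+1) i) (w (2*b+1) i) = 0 := by
          rw [jacobiSym.eq_zero_iff]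
          have := W_ge hy i
          have hc := w_cast hy i
          refine ⟨by omega, ?_⟩
          rw [← hc]
          simp
          omega
        have g2 : jacobiSym (2*(i:ℤ)+1) (2*i+1) = 0 := by
          rw [jacobiSym.eq_zero_iff]
          refine ⟨by omega, ?_⟩
          rw [show (2*(i:ℤ)+1) = ((2*i+1 : ℕ) : ℤ) by push_cast; ring]
          simp
          omega
        rw [g1, g2]
    · exact key i j hs hgt

end Pool.Agent.Helper24.BOdd
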