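import Mathlib
import Pool.Agent.Helper24.BSeq
import Pool.Agent.Helper24.BOdd
import Pool.Agent.Helper24.BNT

set_option autoImplicit false

namespace Pool.Agent.Helper24.BOdd2

open Pool.Agent.Helper24.BSeq Pool.Agent.Helper24.BOdd Pool.Agent.Helper24.BNT

lemma sq_index {b : ℤ} (hb : 0 ≤ b) {j : ℕ} (hsq : ∃ c, w (2*b+1) j = c^2) :
    IsSquare (2*j+1) := by
  by_contra hn
  obtain ⟨m, hm, -, hJ⟩ := exists_jacobi_neg (N := 2*j+1) ⟨j, rfl⟩ hn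
  obtain ⟨i, rfl⟩ := hm
  have h := jac hb (i+j) i j rfl
  push_cast at hJ
  rw [hJ] at h
  obtain ⟨c, hc⟩ := hsq
  rw [hc, jacobiSym.pow_right] at h
  nlinarith [sq_nonneg (jacobiSym (W (2 * b + 1) i) c)]

/-- gcd lemma -/
lemma gcd_dvd {b : ℤ} (hb : 0 ≤ b) (l q : ℕ) :
    Nat.gcd (w (2*b+1) l) (w (t (2*b+1) (2*l+1)) q) ∣ (2*q+1) := by
  have hy : (1:ℤ) ≤ 2*b+1 := by omega
  have hY : (1:ℤ) ≤ t (2*b+1) (2*l+1) := t_pos hy _
  rw [← Int.natCast_dvd_natCast]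
  set d : ℤ := ((Nat.gcd (w (2*b+1) l) (w (t (2*b+1) (2*l+1)) q) : ℕ) : ℤ) with hd
  have h1 : d ∣ W (2*b+1) l := by
    rw [← w_cast hy]; exact Int.natCast_dvd_natCast.mpr (Nat.gcd_dvd_left _ _)
  have h2 : d ∣ W (t (2*b+1) (2*l+1)) q := by
    rw [← w_cast hY]; exact Int.natCast_dvd_natCast.mpr (Nat.gcd_dvd_right _ _)
  have h3 : d ∣ t (2*b+1) (2*l+1) - 1 := by
    rw [t_odd]
    have : d ∣ W (2*b+1) l ^ 2 := by rw [sq]; exact h1.mul_right _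
    exact this.mul_left _
  have h4 := h3.trans (W_mod_sub_one (t (2*b+1) (2*l+1)) q)
  have h5 := dvd_sub h2 h4
  have : (W (t (2 * b + 1) (2 * l + 1)) q - (W (t (2 * b + 1) (2 * l + 1)) q - (2 * (q:ℤ) + 1))) = ((2*q+1:ℕ):ℤ) := by
    push_cast; ring
  rwa [this] at h5

lemma t_odd_eq (b : ℤ) (l : ℕ) : t (2*b+1) (2*l+1) = 2 * (b * W (2*b+1) l ^ 2) + 1 := by
  have := t_odd (2*b+1) l
  linear_combination this

lemma w_mul {y : ℤ} (hy : 1 ≤ y) (l j : ℕ) :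
    w y ((2*l+1)*j + l) = w y l * w (t y (2*l+1)) j := by
  have h := W_mul y l j
  rw [← w_cast hy, ← w_cast hy, ← w_cast (t_pos hy _)] at h
  exact_mod_cast h

theorem reduce {b : ℤ} (hb : 0 ≤ b) {j : ℕ} (hj : 1 ≤ j) (hsq : ∃ c, w (2*b+1) j = c^2) :
    ∃ q l : ℕ, (2*q+1).Prime ∧ (l = 0 ∨ 4 ≤ l) ∧
      (∃ c, w (2*(b * W (2*b+1) l ^ 2)+1) (2*(q*(q+1))) = c^2) ∧
      (∃ c, w (2*(b * W (2*b+1) l ^ 2)+1) q = (2*q+1)*c^2) ∧
      2*j+1 = (2*q+1)^2*(2*l+1) := by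
  have hy : (1:ℤ) ≤ 2*b+1 := by omega
  obtain ⟨r, hr⟩ := sq_index hb hsq
  have hr1 : r ≠ 1 := by rintro rfl; omega
  obtain ⟨p, hp, hpr⟩ := Nat.exists_prime_and_dvd hr1
  obtain ⟨s, rfl⟩ := hpr
  have hpodd : Odd p := by
    have : Odd (p * s * (p * s)) := by rw [← hr]; exact ⟨j, rfl⟩
    rw [Nat.odd_mul, Nat.odd_mul] at this
    exact this.1.1
  have hsodd : Odd s := by
    have : Odd (p * s * (p * s)) := by rw [← hr]; exact ⟨j, rfl⟩
    rw [Nat.odd_mul, Nat.odd_mul] at this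
    exact this.1.2
  obtain ⟨q, rfl⟩ := hpodd
  obtain ⟨l, hl⟩ := (hsodd.mul hsodd)
  have hn : 2*j+1 = (2*q+1)^2*(2*l+1) := by rw [hr, ← hl]; ring
  set j' := (2*l+1)*q+l with hj'
  have hj'2 : 2*j'+1 = (2*l+1)*(2*q+1) := by rw [hj']; ring
  have hjj : j = (2*j'+1)*q+j' := by
    have : 2*j+1 = 2*((2*j'+1)*q+j')+1 := by
      rw [hn]
      have : 2*((2*j'+1)*q+j')+1 = (2*j'+1)*(2*q+1) := by ring
      rw [this, hj'2]; ring
    omega
  -- first split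
  obtain ⟨c, hc⟩ := hsq
  rw [hjj, w_mul hy] at hc
  have hYb : t (2*b+1) (2*l+1) = 2 * (b * W (2*b+1) l ^ 2) + 1 := t_odd_eq b l
  have hb' : 0 ≤ b * W (2*b+1) l ^ 2 := by positivity
  have hns : ¬ IsSquare (2*q+1) := fun h => Irreducible.not_isSquare hp h
  rcases sq_split hp (gcd_dvd hb j' q) hc with ⟨h1, -⟩ | ⟨⟨x, hx⟩, ⟨z, hz⟩⟩
  · exfalso
    have := sq_index hb h1
    rw [hj'2, ← hl] at this
    obtain ⟨v, hv⟩ := this
    have hs0 : 0 < s := hsodd.pos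
    have hdv : s ∣ v := by
      have : s * s ∣ v * v := ⟨2*q+1, hv.symm⟩
      rw [← sq, ← sq] at this
      exact (Nat.pow_dvd_pow_iff (by norm_num)).mp this
    obtain ⟨v', rfl⟩ := hdv
    apply hns
    refine ⟨v', ?_⟩
    have : s*s*(2*q+1) = s*s*(v'*v') := by rw [hv]; ring
    exact Nat.eq_of_mul_eq_mul_left (Nat.mul_pos hs0 hs0) this
  · rw [hj', w_mul hy] at hx
    rcases psq_split hp (gcd_dvd hb l q) hx with ⟨-, ⟨z1, hz1⟩⟩ | ⟨-, h2⟩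
    · refine ⟨q, l, hp, ?_, ?_, ?_, hn⟩
      · rcases Nat.eq_zero_or_pos l with h0 | h0
        · left; exact h0
        · right
          have hs1 : s ≠ 1 := by rintro rfl; omega
          have hs3 : 3 ≤ s := by
            obtain ⟨a, ha⟩ := hsodd
            omega
          nlinarith
      · rw [← hYb]
        refine ⟨(2*q+1)*z1*z, ?_⟩
        have e : 2*(q*(q+1)) = (2*q+1)*q+q := by ring
        rw [e, w_mul (t_pos hy _), hz1, ← t_mul, ← hj'2, hz]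
        ring
      · rw [← hYb]; exact ⟨z1, hz1⟩
    · exfalso
      rw [hYb] at h2
      exact hns (sq_index hb' h2)

lemma dick (y : ℤ) (p : ℕ) (n : ℕ) :
    ((Polynomial.dickson 1 (1 : ZMod p) n).eval (2 * (y : ZMod p)) = 2 * ((t y n : ℤ) : ZMod p)) := by
  have key : ∀ n : ℕ, ((Polynomial.dickson 1 (1 : ZMod p) n).eval (2 * (y : ZMod p)) = 2 * ((t y n : ℤ) : ZMod p)) ∧
    ((Polynomial.dickson 1 (1 : ZMod p) (n+1)).eval (2 * (y : ZMod p)) = 2 * ((t y (n+1) : ℤ) : ZMod p)) := by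
    intro n
    induction n with
    | zero =>
      constructor
      · rw [Polynomial.dickson_zero]; simp; norm_num
      · rw [zero_add, Polynomial.dickson_one]; simp
    | succ n ih =>
      refine ⟨ih.2, ?_⟩
      rw [Polynomial.dickson_add_two, t_two]
      simp only [Polynomial.eval_sub, Polynomial.eval_mul, Polynomial.eval_X, Polynomial.eval_C]
      rw [ih.1, ih.2]
      push_cast; ring
  exact (key n).1

lemma t_prime (y : ℤ) {p : ℕ} (hp : p.Prime) (hp2 : p ≠ 2) : (p : ℤ) ∣ t y p - y := by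
  haveI : Fact p.Prime := ⟨hp⟩
  have h := dick y p p
  rw [Polynomial.dickson_one_one_zmod_p] at h
  simp only [Polynomial.eval_pow, Polynomial.eval_X] at h
  rw [ZMod.pow_card] at h
  have h2 : (2 : ZMod p) ≠ 0 := by
    intro h0
    have : ((2:ℕ) : ZMod p) = 0 := by exact_mod_cast h0
    rw [ZMod.natCast_eq_zero_iff] at this
    have := Nat.le_of_dvd (by norm_num) this
    have := hp.two_le
    omega
  have h3 : ((t y p : ℤ) : ZMod p) = (y : ZMod p) := (mul_left_cancel₀ h2 h).symm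
  rw [← ZMod.intCast_zmod_eq_zero_iff_dvd]
  push_cast
  rw [h3]; ring

lemma p_dvd {b : ℤ} (hb : 0 ≤ b) {q : ℕ} (hp : (2*q+1).Prime)
    (h : ∃ c, w (2*b+1) q = (2*q+1)*c^2) : ((2*q+1 : ℕ) : ℤ) ∣ b := by
  have hp2 : 2*q+1 ≠ 2 := by omega
  have hy : (1:ℤ) ≤ 2*b+1 := by omega
  have h1 := t_prime (2*b+1) hp hp2
  have h2 := t_odd (2*b+1) q
  obtain ⟨c, hc⟩ := h
  have h3 : ((2*q+1 : ℕ) : ℤ) ∣ t (2*b+1) (2*q+1) - 1 := by
    rw [h2, ← w_cast hy, hc]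
    push_cast
    exact ⟨(2*b+1-1) * ((2*q+1) * c^2 * c^2), by ring⟩
  have h4 := dvd_sub h3 h1
  have h5 : ((2*q+1 : ℕ) : ℤ) ∣ 2 * b := by
    have e : 2 * b = t (2*b+1) (2*q+1) - 1 - (t (2*b+1) (2*q+1) - (2*b+1)) := by ring
    rw [e]; exact h4
  have hcop : IsCoprime ((2*q+1 : ℕ) : ℤ) 2 := by
    refine ⟨1, -q, by push_cast; ring⟩
  exact hcop.dvd_of_dvd_mul_left h5

end Pool.Agent.Helper24.BOdd2
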