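import Mathlib
import Pool.Agent.Helper24.BSeq
import Pool.Agent.Helper24.BOdd
import Pool.Agent.Helper24.BOdd2

set_option autoImplicit false

namespace Pool.Agent.Helper24.BFin

open Pool.Agent.Helper24.BSeq Pool.Agent.Helper24.BOdd Pool.Agent.Helper24.BOdd2

/-- iterate the recurrence modulo `m`, starting from `(a, b)`. -/
def step (P m : ℕ) : ℕ → ℕ → ℕ → ℕ
  | 0, a, _ => a
  | n+1, a, b => step P m n b ((P * b + (m - a)) % m)

def isQR (m r : ℕ) : Bool := (List.range m).any (fun z => Nat.beq (z * z % m) r)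

def nonres (P m n p : ℕ) : Bool := !(isQR m ((p * step P m n 1 ((P+1) % m)) % m))

def primeB (p : ℕ) : Bool := (List.range 32).all (fun d => Nat.ble d 1 || Nat.ble p d || !(Nat.beq (p % d) 0))

def mods : List ℕ := [7,5,11,13,17,19,23,29,31,37,41,43]

def chk (b q : ℕ) : Bool :=
  (mods.any fun m => nonres (4*b+2) m q (2*q+1)) ||
  (mods.any fun m => nonres (4*b+2) m (2*(q*(q+1))) 1)

def chkAll : Bool :=
  (List.range 512).all fun q => Nat.beq q 0 || !(primeB (2*q+1)) ||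
    ((List.range (1024/(2*q+1) + 1)).all fun k => Nat.beq k 0 || chk (k*(2*q+1)) q)

theorem chkAll_true : chkAll = true := by decide +kernel

lemma emod_sub_dvd (x m : ℤ) : m ∣ x % m - x := ⟨-(x/m), by rw [Int.emod_def]; ring⟩

lemma step_spec (b : ℤ) (m : ℕ) (hm : 2 ≤ m) (P : ℕ) (hP : (P:ℤ) = 2 * (2*b+1)) (h : ℕ) :
    ∀ (n : ℕ) (a c : ℕ), a < m → (m:ℤ) ∣ a - W (2*b+1) h → (m:ℤ) ∣ c - W (2*b+1) (h+1) →
      c < m → (m:ℤ) ∣ step P m n a c - W (2*b+1) (h+n) := by
  intro n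
  induction n generalizing h with
  | zero => intro a c _ h1 _ _; simpa [step] using h1
  | succ n ih =>
    intro a c ha h1 h2 hc
    rw [step]
    have e : h + (n+1) = (h+1) + n := by ring
    rw [e]
    apply ih (h+1)
    · exact hc
    · exact h2
    · have h3 : (m:ℤ) ∣ (((P * c + (m - a)) % m : ℕ) : ℤ) - ((P * c + (m-a) : ℕ) : ℤ) := by
        rw [Int.natCast_mod]
        exact emod_sub_dvd _ _
      have h4 : (m:ℤ) ∣ ((P * c + (m-a) : ℕ) : ℤ) - W (2*b+1) (h+1+1) := by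
        obtain ⟨x, hx⟩ := h1
        obtain ⟨z, hz⟩ := h2
        refine ⟨P * z - x + 1, ?_⟩
        have e1 : W (2*b+1) (h+1+1) = 2 * (2*b+1) * W (2*b+1) (h+1) - W (2*b+1) h := W_two _ _
        rw [e1]
        push_cast [Nat.cast_sub ha.le]
        rw [hP]
        linear_combination (2*(2*b+1)) * hz - hx
      have := dvd_add h3 h4
      simpa using this
    · exact Nat.mod_lt _ (by omega)

lemma nonres_spec {b : ℤ} (hb : 0 ≤ b) (m : ℕ) (hm : 2 ≤ m) (P : ℕ) (hP : (P:ℤ) = 2 * (2*b+1)) (n p : ℕ)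
    (h : nonres P m n p = true) : ¬ ∃ c, p * w (2*b+1) n = c^2 := by
  rintro ⟨c, hc⟩
  have hy : (1:ℤ) ≤ 2*b+1 := by omega
  have h1 : (m:ℤ) ∣ step P m n 1 ((P+1) % m) - W (2*b+1) n := by
    have := step_spec b m hm P hP 0 n 1 ((P+1) % m) (by omega) (by simp) (by
      rw [zero_add, W_one, Int.natCast_mod]
      have : (2 * (2*b+1) + 1) = ((P+1:ℕ):ℤ) := by push_cast; rw [hP]
      rw [this]
      exact emod_sub_dvd _ _) (Nat.mod_lt _ (by omega))
    simpa using this
  have h2 : (p * step P m n 1 ((P+1) % m)) % m = (c % m) * (c % m) % m := by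
    rw [← Nat.mul_mod, ← sq, ← hc]
    have h3 : (step P m n 1 ((P+1) % m)) ≡ w (2*b+1) n [MOD m] := by
      rw [← Int.natCast_modEq_iff, w_cast hy]
      exact (Int.modEq_iff_dvd.mpr (by
        have := (dvd_neg (a := (m:ℤ))).mpr h1
        simpa using this))
    exact (h3.mul_left p)
  unfold nonres isQR at h
  rw [h2] at h
  simp only [Bool.not_eq_true', List.any_eq_false, List.mem_range] at h
  have := h (c % m) (Nat.mod_lt _ (by omega))
  exact this (Nat.beq_refl _)

lemma primeB_spec {p : ℕ} (hp : p.Prime) : primeB p = true := by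
  unfold primeB
  rw [List.all_eq_true]
  intro d _
  by_cases h1 : d ≤ 1
  · simp [Nat.ble_eq, h1]
  by_cases h2 : p ≤ d
  · simp [Nat.ble_eq, h2]
  · have : p % d ≠ 0 := by
      intro h0
      rcases (Nat.dvd_prime hp).mp (Nat.dvd_of_mod_eq_zero h0) with h | h <;> omega
    have hb : Nat.beq (p % d) 0 = false := by
      rw [Bool.eq_false_iff]; intro h; exact this (Nat.eq_of_beq_eq_true h)
    rw [hb]; simp

lemma chk_spec {b q : ℕ} (h : chk b q = true)
    (h1 : ∃ c, w (2*(b:ℤ)+1) q = (2*q+1)*c^2) (h2 : ∃ c, w (2*(b:ℤ)+1) (2*(q*(q+1))) = c^2) : False := by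
  unfold chk at h
  have hP : ((4*b+2 : ℕ) : ℤ) = 2 * (2*(b:ℤ)+1) := by push_cast; ring
  have hmods : ∀ m ∈ mods, 2 ≤ m := by decide
  rw [Bool.or_eq_true] at h
  rcases h with h | h
  · rw [List.any_eq_true] at h
    obtain ⟨m, hm, hn⟩ := h
    apply nonres_spec (b := b) (by positivity) m (hmods m hm) _ hP _ _ hn
    obtain ⟨c, hc⟩ := h1
    exact ⟨(2*q+1)*c, by rw [hc]; ring⟩
  · rw [List.any_eq_true] at h
    obtain ⟨m, hm, hn⟩ := h
    apply nonres_spec (b := b) (by positivity) m (hmods m hm) _ hP _ _ hn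
    obtain ⟨c, hc⟩ := h2
    exact ⟨c, by rw [hc]; ring⟩

theorem fin_check {b : ℤ} (hb1 : 1 ≤ b) (hb2 : b ≤ 1024) {q : ℕ} (hp : (2*q+1).Prime)
    (h1 : ∃ c, w (2*b+1) q = (2*q+1)*c^2) (h2 : ∃ c, w (2*b+1) (2*(q*(q+1))) = c^2) : False := by
  have hd := p_dvd (by omega) hp h1
  lift b to ℕ using (by omega)
  have hd' : (2*q+1) ∣ b := Int.natCast_dvd_natCast.mp hd
  obtain ⟨k, hk⟩ := hd'
  have hk0 : k ≠ 0 := by rintro rfl; simp at hk; omega
  have hq0 : q ≠ 0 := by rintro rfl; exact Nat.not_prime_one (by simpa using hp)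
  have hb2' : b ≤ 1024 := by exact_mod_cast hb2
  have hkle : k ≤ 1024/(2*q+1) := by
    rw [Nat.le_div_iff_mul_le (by omega)]
    rw [mul_comm, ← hk]; exact hb2'
  have hq : q < 512 := by
    have : 2*q+1 ≤ b := by rw [hk]; exact Nat.le_mul_of_pos_right _ (by omega)
    omega
  have hall := chkAll_true
  unfold chkAll at hall
  rw [List.all_eq_true] at hall
  have h3 := hall q (List.mem_range.mpr hq)
  rw [primeB_spec hp] at h3
  have hqb : Nat.beq q 0 = false := by
    rw [Bool.eq_false_iff]; intro h; exact hq0 (Nat.eq_of_beq_eq_true h)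
  rw [hqb] at h3
  simp only [Bool.not_true, Bool.or_false, Bool.false_or, List.all_eq_true] at h3
  have h4 := h3 k (List.mem_range.mpr (by omega))
  have hkb : Nat.beq k 0 = false := by
    rw [Bool.eq_false_iff]; intro h; exact hk0 (Nat.eq_of_beq_eq_true h)
  rw [hkb, Bool.false_or] at h4
  rw [mul_comm, ← hk] at h4
  exact chk_spec h4 h1 h2

end Pool.Agent.Helper24.BFin
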