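import Mathlib

set_option autoImplicit false

namespace Pool.Agent.Helper24.BPade1

open Finset

/-- homogeneous three term recurrence -/
noncomputable def A (e C S : ℝ) : ℕ → ℝ
  | 0 => 1
  | 1 => C + e * S
  | (k+2) => ((2*k+3) * C * A e C S (k+1) - ((k+1) - e^2/(k+1)) * S^2 * A e C S k) / (k+2)

@[simp] lemma A_zero (e C S : ℝ) : A e C S 0 = 1 := rfl
@[simp] lemma A_one (e C S : ℝ) : A e C S 1 = C + e * S := rfl
lemma A_rec (e C S : ℝ) (k : ℕ) : (k+2) * A e C S (k+2) =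
    (2*k+3) * C * A e C S (k+1) - ((k+1) - e^2/(k+1)) * S^2 * A e C S k := by
  have : ((k:ℝ)+2) ≠ 0 := by positivity
  rw [A]; field_simp

/-- coefficients, indexed by `i = k - j` and `j`. -/
noncomputable def a : ℕ → ℕ → ℝ
  | 0, j => Nat.centralBinom j
  | (i+1), j => a i j * ((i+j+5/4) * (2*j+i+1)) / ((i+1) * (j+i+1))

lemma a_zero (j : ℕ) : a 0 j = Nat.centralBinom j := rfl
lemma a_succ (i j : ℕ) : a (i+1) j = a i j * ((i+j+5/4) * (2*j+i+1)) / ((i+1) * (j+i+1)) := rfl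

lemma cb (j : ℕ) : ((j:ℝ)+1) * (Nat.centralBinom (j+1) : ℝ) = 2 * (2*j+1) * (Nat.centralBinom j : ℝ) := by
  exact_mod_cast Nat.succ_mul_centralBinom_succ j

lemma a_two (i j : ℕ) : a (i+2) j * ((i+1)*(i+2)*(j+i+2)) =
    a i (j+1) * ((j+5/4)*(i+j+9/4)*(j+1)) := by
  induction i with
  | zero =>
    rw [a_succ, a_succ, a_zero, a_zero]
    have h := cb j
    have h1 : (j:ℝ)+1 ≠ 0 := by positivity
    have h2 : (j:ℝ)+2 ≠ 0 := by positivity
    have h4 : 2*(j:ℝ)+1 ≠ 0 := by positivity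
    have hc : (Nat.centralBinom j : ℝ) = ((j:ℝ)+1) * (Nat.centralBinom (j+1) : ℝ) / (2 * (2*j+1)) := by
      rw [eq_div_iff (by positivity)]; linarith
    rw [hc]
    have h5 : (j:ℝ)+1+1 ≠ 0 := by positivity
    push_cast
    field_simp
    ring
  | succ i ih =>
    have e1 : a (i+1+2) j = a (i+2) j * (((i+2:ℕ)+j+5/4) * (2*j+(i+2:ℕ)+1)) / (((i+2:ℕ)+1) * (j+(i+2:ℕ)+1)) := rfl
    have e2 : a (i+1) (j+1) = a i (j+1) * ((i+(j+1:ℕ)+5/4) * (2*(j+1:ℕ)+i+1)) / ((i+1) * ((j+1:ℕ)+i+1)) := rfl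
    rw [e1, e2]
    have h1 : (i:ℝ)+1 ≠ 0 := by positivity
    have h2 : (i:ℝ)+2 ≠ 0 := by positivity
    have h3 : (i:ℝ)+3 ≠ 0 := by positivity
    have h4 : (j:ℝ)+i+2 ≠ 0 := by positivity
    have h5 : (j:ℝ)+i+3 ≠ 0 := by positivity
    have ih' : a (i+2) j = a i (j+1) * ((j+5/4)*(i+j+9/4)*(j+1)) / ((i+1)*(i+2)*(j+i+2)) := by
      rw [eq_div_iff (by positivity)]; exact ih
    rw [ih']
    push_cast
    have h6 : (i:ℝ)+2+1 ≠ 0 := by positivity
    have h7 : (j:ℝ)+(i+2)+1 ≠ 0 := by positivity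
    have h8 : (j:ℝ)+1+i+1 ≠ 0 := by positivity
    have h9 : (i:ℝ)+1+2 ≠ 0 := by positivity
    field_simp
    ring

/-- padded coefficients -/
noncomputable def a' (k j : ℕ) : ℝ := if j ≤ k then a (k-j) j else 0

lemma a'_add (i j : ℕ) : a' (i+j) j = a i j := by simp [a']
lemma a'_gt {k j : ℕ} (h : k < j) : a' k j = 0 := by simp [a', h]

lemma rec0 (k : ℕ) : (k+2) * a' (k+2) 0 = (2*k+3) * a' (k+1) 0 - ((k+1) - (1/4:ℝ)^2/(k+1)) * a' k 0 := by
  have e1 : a' (k+2) 0 = a (k+2) 0 := a'_add (k+2) 0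
  have e2 : a' (k+1) 0 = a (k+1) 0 := a'_add (k+1) 0
  have e3 : a' k 0 = a k 0 := a'_add k 0
  rw [e1, e2, e3]
  have f1 : a (k+2) 0 = a (k+1) 0 * (((k+1:ℕ)+(0:ℕ)+5/4) * (2*(0:ℕ)+(k+1:ℕ)+1)) / (((k+1:ℕ)+1) * ((0:ℕ)+(k+1:ℕ)+1)) := rfl
  rw [f1, a_succ]
  have h1 : (k:ℝ)+1 ≠ 0 := by positivity
  have h2 : (k:ℝ)+2 ≠ 0 := by positivity
  have h3 : (k:ℝ)+1+1 ≠ 0 := by positivity
  push_cast
  field_simp
  ring

lemma recs (k j : ℕ) : (k+2) * a' (k+2) (j+1) =
    (2*k+3) * (a' (k+1) (j+1) + 2 * a' (k+1) j) - ((k+1) - (1/4:ℝ)^2/(k+1)) * a' k (j+1) := by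
  rcases Nat.lt_or_ge k (j+1) with hk | hk
  · rcases Nat.lt_or_ge k j with hk2 | hk2
    · rcases Nat.lt_or_ge (k+1) j with hk3 | hk3
      · rw [a'_gt (by omega), a'_gt (by omega), a'_gt (by omega), a'_gt (by omega)]; ring
      · have : j = k+1 := by omega
        subst this
        rw [a'_gt (k := k+1) (j := k+1+1) (by omega), a'_gt (k := k) (by omega)]
        have e1 : a' (k+2) (k+1+1) = a 0 (k+2) := by
          have := a'_add 0 (k+2); rw [zero_add] at this; exact this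
        have e2 : a' (k+1) (k+1) = a 0 (k+1) := by
          have := a'_add 0 (k+1); rw [zero_add] at this; exact this
        rw [e1, e2, a_zero, a_zero]
        have := cb (k+1)
        push_cast at this
        linear_combination this
    · have : j = k := by omega
      subst this
      rw [a'_gt (k := j) (j := j+1) (by omega)]
      have e1 : a' (j+2) (j+1) = a 1 (j+1) := by
        have := a'_add 1 (j+1); rw [show 1+(j+1) = j+2 by ring] at this; exact this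
      have e2 : a' (j+1) (j+1) = a 0 (j+1) := by
        have := a'_add 0 (j+1); rw [zero_add] at this; exact this
      have e3 : a' (j+1) j = a 1 j := by
        have := a'_add 1 j; rw [show 1+j = j+1 by ring] at this; exact this
      rw [e1, e2, e3]
      have f1 : a 1 (j+1) = a 0 (j+1) * (((0:ℕ)+(j+1:ℕ)+5/4) * (2*(j+1:ℕ)+(0:ℕ)+1)) / (((0:ℕ)+1) * ((j+1:ℕ)+(0:ℕ)+1)) := rfl
      have f2 : a 1 j = a 0 j * (((0:ℕ)+j+5/4) * (2*j+(0:ℕ)+1)) / (((0:ℕ)+1) * (j+(0:ℕ)+1)) := rfl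
      rw [f1, f2, a_zero, a_zero]
      have h := cb j
      have h1 : (j:ℝ)+1 ≠ 0 := by positivity
      have h3 : (j:ℝ)+1+1 ≠ 0 := by positivity
      have hc : (Nat.centralBinom j : ℝ) = ((j:ℝ)+1) * (Nat.centralBinom (j+1) : ℝ) / (2 * (2*j+1)) := by
        rw [eq_div_iff (by positivity)]; linarith
      rw [hc]
      have h4 : 2*(j:ℝ)+1 ≠ 0 := by positivity
      push_cast
      field_simp
      ring
  · obtain ⟨i, rfl⟩ : ∃ i, k = i + (j+1) := ⟨k-(j+1), by omega⟩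
    have e1 : a' (i+(j+1)+2) (j+1) = a (i+2) (j+1) := by
      have := a'_add (i+2) (j+1); rw [show i+2+(j+1) = i+(j+1)+2 by ring] at this; exact this
    have e2 : a' (i+(j+1)+1) (j+1) = a (i+1) (j+1) := by
      have := a'_add (i+1) (j+1); rw [show i+1+(j+1) = i+(j+1)+1 by ring] at this; exact this
    have e3 : a' (i+(j+1)+1) j = a (i+2) j := by
      have := a'_add (i+2) j; rw [show i+2+j = i+(j+1)+1 by ring] at this; exact this
    rw [e1, e2, e3, a'_add]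
    have h1 : (i:ℝ)+1 ≠ 0 := by positivity
    have h2 : (i:ℝ)+2 ≠ 0 := by positivity
    have h4 : (j:ℝ)+i+2 ≠ 0 := by positivity
    have h5 : (j:ℝ)+i+3 ≠ 0 := by positivity
    have g1 : a (i+2) j = a i (j+1) * ((j+5/4)*(i+j+9/4)*(j+1)) / ((i+1)*(i+2)*(j+i+2)) := by
      rw [eq_div_iff (by positivity)]; exact a_two i j
    have g2 : a (i+1) (j+1) = a i (j+1) * ((i+(j+1:ℕ)+5/4) * (2*(j+1:ℕ)+i+1)) / ((i+1) * ((j+1:ℕ)+i+1)) := rfl
    have g3 : a (i+2) (j+1) = a (i+1) (j+1) * (((i+1:ℕ)+(j+1:ℕ)+5/4) * (2*(j+1:ℕ)+(i+1:ℕ)+1)) / (((i+1:ℕ)+1) * ((j+1:ℕ)+(i+1:ℕ)+1)) := rfl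
    rw [g3, g2, g1]
    push_cast
    have h6 : (i:ℝ)+1+1 ≠ 0 := by positivity
    have h7 : (j:ℝ)+1+(i+1)+1 ≠ 0 := by positivity
    have h8 : (j:ℝ)+1+i+1 ≠ 0 := by positivity
    have h9 : (i:ℝ)+(j+1)+1 ≠ 0 := by positivity
    have h10 : (i:ℝ)+(j+1)+2 ≠ 0 := by positivity
    field_simp
    ring

/-- the explicit sum -/
lemma A_eq_sum (x : ℝ) (k : ℕ) :
    A (1/4) x 1 k = ∑ j ∈ range (k+1), a' k j * ((x-1)/2)^j := by
  have key : ∀ k : ℕ, A (1/4) x 1 k = ∑ j ∈ range (k+1), a' k j * ((x-1)/2)^j ∧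
      A (1/4) x 1 (k+1) = ∑ j ∈ range (k+2), a' (k+1) j * ((x-1)/2)^j := by
    intro k
    induction k with
    | zero =>
      constructor
      · simp [a', a_zero]
      · rw [sum_range_succ, sum_range_succ, sum_range_zero]
        have e1 : a' (0+1) 0 = 5/4 := by
          have := a'_add 1 0
          rw [this, a_succ, a_zero]; norm_num [Nat.centralBinom]
        have e2 : a' (0+1) 1 = 2 := by
          have := a'_add 0 1
          rw [this, a_zero]; norm_num [Nat.centralBinom, Nat.choose]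
        rw [e1, e2]; simp; ring
    | succ k ih =>
      refine ⟨ih.2, ?_⟩
      have hr := A_rec (1/4) x 1 k
      rw [ih.1, ih.2] at hr
      set v := (x-1)/2 with hv
      have hx : x = 1 + 2*v := by rw [hv]; ring
      have h2 : ((k:ℝ)+2) ≠ 0 := by positivity
      apply mul_left_cancel₀ h2
      rw [show k+1+1 = k+2 from rfl, hr]
      -- expand the sums
      have s1 : ∑ j ∈ range (k+1), a' k j * v^j = a' k 0 + ∑ j ∈ range (k+2), a' k (j+1) * v^(j+1) := by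
        rw [sum_range_succ' _ k]
        rw [sum_range_succ _ (k+1), sum_range_succ _ k, a'_gt (by omega : k < k+1), a'_gt (by omega : k < k+1+1)]
        simp; ring
      have s2 : ∑ j ∈ range (k+2), a' (k+1) j * v^j = a' (k+1) 0 + ∑ j ∈ range (k+2), a' (k+1) (j+1) * v^(j+1) := by
        rw [sum_range_succ' _ (k+1)]
        rw [sum_range_succ _ (k+1), a'_gt (by omega : k+1 < k+1+1)]
        simp; ring
      have s3 : ∑ j ∈ range (k+1+2), a' (k+2) j * v^j = a' (k+2) 0 + ∑ j ∈ range (k+2), a' (k+2) (j+1) * v^(j+1) := by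
        rw [sum_range_succ' _ (k+2)]; simp; ring
      have s4 : ∑ j ∈ range (k+2), (2*k+3) * (2 * a' (k+1) j) * v^(j+1) = (2*k+3) * (2*v) * ∑ j ∈ range (k+2), a' (k+1) j * v^j := by
        rw [mul_sum]; apply sum_congr rfl; intro j _; ring
      have s5 : ((k:ℝ)+2) * ∑ j ∈ range (k+2), (a' (k+2) (j+1) * v^(j+1)) =
          (2*k+3) * ∑ j ∈ range (k+2), a' (k+1) (j+1) * v^(j+1) +
          ∑ j ∈ range (k+2), (2*k+3) * (2 * a' (k+1) j) * v^(j+1) -
          ((k+1) - (1/4:ℝ)^2/(k+1)) * ∑ j ∈ range (k+2), a' k (j+1) * v^(j+1) := by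
        rw [mul_sum, mul_sum, mul_sum, ← sum_add_distrib, ← sum_sub_distrib]
        apply sum_congr rfl
        intro j _
        rw [← mul_assoc, recs k j]; ring
      rw [s3, mul_add, rec0 k, s5, s4, s1, s2]
      rw [hx]
      ring
  exact (key k).1

end Pool.Agent.Helper24.BPade1
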