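import Mathlib
import Pool.Agent.Helper24.BPade1

set_option autoImplicit false

namespace Pool.Agent.Helper24.BPade2

open Finset Pool.Agent.Helper24.BPade1

lemma odd_part_dvd (j i m : ℕ) (hm : Odd m) (h : m ∣ i.factorial) :
    m ∣ ∏ s ∈ range i, (4*(j+s)+5) := by
  have hcop : Nat.Coprime 4 m := by
    have : Nat.Coprime 2 m := (Nat.coprime_two_left).2 hm
    exact (Nat.Coprime.pow_left 2 this : Nat.Coprime (2^2) m)
  obtain ⟨c, hc⟩ : ∃ c : ℕ, 4 * c ≡ 5 [MOD m] := by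
    obtain ⟨q, hq⟩ := hm
    refine ⟨5 * (q+1)^2, ?_⟩
    have : 4 * (5 * (q+1)^2) = 5 + 5 * (2*q+3) * (2*q+1) := by ring
    rw [this, hq]
    exact (Nat.modEq_iff_dvd' (by omega)).2 ⟨5*(2*q+3), by
      rw [Nat.add_sub_cancel_left]; ring⟩ |>.symm
  have h1 : ∏ s ∈ range i, (4*(j+s)+5) ≡ ∏ s ∈ range i, (4*((j+c)+s)) [MOD m] := by
    apply Nat.ModEq.prod
    intro s _
    have : 4*(j+s)+5 ≡ 4*(j+s)+4*c [MOD m] := Nat.ModEq.add_left _ hc.symm
    rwa [show 4*(j+s)+4*c = 4*((j+c)+s) by ring] at this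
  have h2 : m ∣ ∏ s ∈ range i, (4*((j+c)+s)) := by
    rw [prod_mul_distrib, ← Nat.ascFactorial_eq_prod_range]
    exact Dvd.dvd.mul_left (h.trans (Nat.factorial_dvd_ascFactorial _ _)) _
  exact (Nat.ModEq.dvd_iff h1 dvd_rfl).2 h2

lemma fact_dvd (j i : ℕ) : i.factorial ∣ 2^i * ∏ s ∈ range i, (4*(j+s)+5) := by
  obtain ⟨v, m, hm, hv⟩ := Nat.exists_eq_two_pow_mul_odd (Nat.factorial_ne_zero i)
  have h2 : v ≤ i := by
    rcases Nat.eq_zero_or_pos i with h0 | h0
    · subst h0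
      by_contra hcon
      have : 2 ∣ Nat.factorial 0 := by rw [hv]; exact Dvd.dvd.mul_right (dvd_pow_self 2 (by omega)) _
      simp at this
    · have := Nat.emultiplicity_two_factorial_lt (n := i) (by omega)
      have h3 : (v : ℕ∞) ≤ emultiplicity 2 i.factorial := by
        apply le_emultiplicity_of_pow_dvd
        rw [hv]; exact Dvd.intro _ rfl
      have h4 : (v : ℕ∞) < (i : ℕ∞) := lt_of_le_of_lt h3 this
      exact le_of_lt (by exact_mod_cast h4)
  have h3 : m ∣ ∏ s ∈ range i, (4*(j+s)+5) := odd_part_dvd j i m hm (by rw [hv]; exact Dvd.intro_left _ rfl)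
  rw [hv]
  exact mul_dvd_mul (pow_dvd_pow 2 h2) h3

lemma a_closed (i j : ℕ) : a i j * (4^i * (i.factorial : ℝ)) =
    ((2*j+i).choose j : ℝ) * ((∏ s ∈ range i, (4*(j+s)+5) : ℕ) : ℝ) := by
  induction i with
  | zero => simp [a_zero, Nat.centralBinom]
  | succ i ih =>
    have hc : ((2*j+(i+1)).choose j : ℝ) * (j+i+1) = ((2*j+i).choose j : ℝ) * (2*j+i+1) := by
      have := Nat.add_one_mul_choose_eq (2*j+i) (j+i)
      have e1 : (2*j+i).choose (j+i) = (2*j+i).choose j := by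
        apply Nat.choose_symm_of_eq_add; ring
      have e2 : (2*j+i+1).choose (j+i+1) = (2*j+(i+1)).choose j := by
        apply Nat.choose_symm_of_eq_add; ring
      rw [e1, e2] at this
      have h := congrArg (Nat.cast (R := ℝ)) this
      push_cast at h
      linarith
    rw [a_succ, prod_range_succ, Nat.factorial_succ, pow_succ]
    have h1 : (i:ℝ)+1 ≠ 0 := by positivity
    have h2 : (j:ℝ)+i+1 ≠ 0 := by positivity
    have hc' : ((2*j+(i+1)).choose j : ℝ) = ((2*j+i).choose j : ℝ) * (2*j+i+1) / (j+i+1) := by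
      rw [eq_div_iff h2]; exact hc
    rw [hc']
    rw [Nat.cast_mul, Nat.cast_mul]
    have : a i j * ((↑i + ↑j + 5 / 4) * (2 * ↑j + ↑i + 1)) / ((↑i + 1) * (↑j + ↑i + 1)) * (4 ^ i * 4 * (((i+1 : ℕ) : ℝ) * (i.factorial : ℝ))) =
        (a i j * (4^i * (i.factorial : ℝ))) * ((4*(i+j)+5) * (2*j+i+1) / (j+i+1)) := by
      push_cast
      field_simp
    rw [this, ih]
    push_cast
    field_simp
    ring

lemma coeff_int (i j : ℕ) : ∃ c : ℤ, (8:ℝ)^(i+j) * a i j / 2^j = c := by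
  obtain ⟨d, hd⟩ := fact_dvd j i
  refine ⟨4^j * ((2*j+i).choose j : ℤ) * d, ?_⟩
  have h := a_closed i j
  have hf : (i.factorial : ℝ) ≠ 0 := by exact_mod_cast Nat.factorial_ne_zero i
  have h4 : (4:ℝ)^i ≠ 0 := by positivity
  have ha : a i j = ((2*j+i).choose j : ℝ) * ((∏ s ∈ range i, (4*(j+s)+5) : ℕ) : ℝ) / (4^i * (i.factorial : ℝ)) := by
    rw [eq_div_iff (mul_ne_zero h4 hf)]; exact h
  have hd' := congrArg (Nat.cast (R := ℝ)) hd
  rw [Nat.cast_mul, Nat.cast_pow, Nat.cast_mul] at hd'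
  have e8i : (8:ℝ)^i = 4^i * 2^i := by rw [← mul_pow]; norm_num
  have e8j : (8:ℝ)^j = 4^j * 2^j := by rw [← mul_pow]; norm_num
  have hp : ((∏ s ∈ range i, (4*(j+s)+5) : ℕ) : ℝ) = (i.factorial : ℝ) * d / 2^i := by
    rw [eq_div_iff (by positivity), mul_comm]; exact_mod_cast hd'
  rw [ha, hp, pow_add, e8i, e8j]
  push_cast
  field_simp

lemma coeff_int' (k j : ℕ) : ∃ c : ℤ, (8:ℝ)^k * a' k j / 2^j = c := by
  rcases Nat.lt_or_ge k j with h | h
  · exact ⟨0, by rw [a'_gt h]; simp⟩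
  · obtain ⟨i, rfl⟩ : ∃ i, k = i + j := ⟨k-j, by omega⟩
    rw [a'_add]; exact coeff_int i j

lemma pow_conj (N : ℤ) (B : ℝ) (hB : B^2 = N) (j : ℕ) :
    ∃ X Y : ℤ, (B-1)^j = X + Y*B ∧ (-B-1)^j = X - Y*B := by
  induction j with
  | zero => exact ⟨1, 0, by simp, by simp⟩
  | succ j ih =>
    obtain ⟨X, Y, h1, h2⟩ := ih
    refine ⟨N*Y - X, X - Y, ?_, ?_⟩
    · rw [pow_succ, h1]; push_cast; rw [← hB]; ring
    · rw [pow_succ, h2]; push_cast; rw [← hB]; ring

lemma sum_conj (N : ℤ) (B : ℝ) (hB : B^2 = N) (c : ℕ → ℤ) (n : ℕ) :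
    ∃ X Y : ℤ, ∑ j ∈ range n, (c j : ℝ) * (B-1)^j = X + Y*B ∧
      ∑ j ∈ range n, (c j : ℝ) * (-B-1)^j = X - Y*B := by
  induction n with
  | zero => exact ⟨0, 0, by simp, by simp⟩
  | succ n ih =>
    obtain ⟨X, Y, h1, h2⟩ := ih
    obtain ⟨X', Y', h3, h4⟩ := pow_conj N B hB n
    refine ⟨X + c n * X', Y + c n * Y', ?_, ?_⟩
    · rw [sum_range_succ, h1, h3]; push_cast; ring
    · rw [sum_range_succ, h2, h4]; push_cast; ring

lemma A_homog (e C S s : ℝ) (k : ℕ) : A e (s*C) (s*S) k = s^k * A e C S k := by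
  have key : ∀ k, A e (s*C) (s*S) k = s^k * A e C S k ∧ A e (s*C) (s*S) (k+1) = s^(k+1) * A e C S (k+1) := by
    intro k
    induction k with
    | zero => constructor
              · simp
              · simp; ring
    | succ k ih =>
      refine ⟨ih.2, ?_⟩
      have h1 := A_rec e (s*C) (s*S) k
      have h2 := A_rec e C S k
      rw [ih.1, ih.2] at h1
      have h3 : ((k:ℝ)+2) ≠ 0 := by positivity
      apply mul_left_cancel₀ h3
      rw [show k+1+1 = k+2 from rfl, h1]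
      have : ((k:ℝ)+2) * (s^(k+2) * A e C S (k+2)) = s^(k+2) * (((k:ℝ)+2) * A e C S (k+2)) := by ring
      rw [this, h2]; ring
  exact (key k).1

lemma A_neg (e C S : ℝ) (k : ℕ) : A (-e) C S k = A e C (-S) k := by
  have key : ∀ k, A (-e) C S k = A e C (-S) k ∧ A (-e) C S (k+1) = A e C (-S) (k+1) := by
    intro k
    induction k with
    | zero => constructor
              · simp
              · simp
    | succ k ih =>
      refine ⟨ih.2, ?_⟩
      have h1 := A_rec (-e) C S k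
      have h2 := A_rec e C (-S) k
      rw [ih.1, ih.2] at h1
      have h3 : ((k:ℝ)+2) ≠ 0 := by positivity
      apply mul_left_cancel₀ h3
      rw [show k+1+1 = k+2 from rfl, h1, h2]; ring
  exact (key k).1

theorem integrality (N : ℤ) (B : ℝ) (hB : B^2 = N) (k : ℕ) :
    ∃ X Y : ℤ, 8^k * A (1/4) B 1 k = X + Y*B ∧ 8^k * A (-(1/4)) B 1 k = (-1)^k * (X - Y*B) := by
  choose c hc using coeff_int' k
  obtain ⟨X, Y, h1, h2⟩ := sum_conj N B hB c (k+1)
  refine ⟨X, Y, ?_, ?_⟩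
  · rw [← h1, A_eq_sum, mul_sum]
    apply sum_congr rfl
    intro j _
    rw [← hc j, div_pow]; ring
  · have e1 : A (-(1/4)) B 1 k = (-1)^k * A (1/4) (-B) 1 k := by
      rw [A_neg]
      have := A_homog (1/4) (-B) 1 (-1) k
      rw [show (-1:ℝ) * -B = B by ring, show (-1:ℝ)*1 = -1 by ring] at this
      exact this
    rw [e1, ← h2, A_eq_sum]
    rw [← mul_assoc, mul_comm ((8:ℝ)^k), mul_assoc, mul_sum]
    congr 1
    apply sum_congr rfl
    intro j _
    rw [← hc j, div_pow]; ring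

end Pool.Agent.Helper24.BPade2
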