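import Mathlib
import Pool.Agent.Helper24.BPade2

set_option autoImplicit false

namespace Pool.Agent.Helper24.BPade3

open Finset Pool.Agent.Helper24.BPade1 Pool.Agent.Helper24.BPade2 Real

/-- the function of eta -/
noncomputable def f (e : ℝ) (k : ℕ) (x : ℝ) : ℝ := A e (cosh (2*x)) (sinh (2*x)) k

noncomputable def gam (e : ℝ) (k : ℕ) : ℝ := (k:ℝ) - e^2/k

noncomputable def D (e : ℝ) : ℕ → ℝ → ℝ
  | 0, _ => 0
  | (k+1), x => 2 * e * f e (k+1) x + 2 * gam e (k+1) * sinh (2*x) * f e k x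

lemma f_rec (e : ℝ) (k : ℕ) (x : ℝ) : (k+2) * f e (k+2) x =
    (2*k+3) * cosh (2*x) * f e (k+1) x - gam e (k+1) * sinh (2*x)^2 * f e k x := by
  have := A_rec e (cosh (2*x)) (sinh (2*x)) k
  rw [f, f, f, gam, this]; push_cast; ring

lemma companion (e : ℝ) (k : ℕ) (x : ℝ) : sinh (2*x) * D e k x =
    2 * e * sinh (2*x) * f e k x + 2 * ((2*k+1) * cosh (2*x) * f e k x - (k+1) * f e (k+1) x) := by
  cases k with
  | zero =>
    simp [D, f]; ring
  | succ k =>
    have h := f_rec e k x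
    rw [D]; push_cast
    have e1 : ((k:ℝ)+1+1) * f e (k+1+1) x = (2*k+3) * cosh (2*x) * f e (k+1) x - gam e (k+1) * sinh (2*x)^2 * f e k x := by
      rw [← h]; ring_nf
    rw [e1]; ring

lemma hasDeriv_ch (x : ℝ) : HasDerivAt (fun x : ℝ => cosh (2*x)) (2 * sinh (2*x)) x := by
  have h1 : HasDerivAt (fun x : ℝ => 2*x) 2 x := by
    simpa using (hasDerivAt_id x).const_mul 2
  have := (Real.hasDerivAt_cosh (2*x)).comp x h1
  rw [mul_comm] at this; exact this

lemma hasDeriv_sh (x : ℝ) : HasDerivAt (fun x : ℝ => sinh (2*x)) (2 * cosh (2*x)) x := by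
  have h1 : HasDerivAt (fun x : ℝ => 2*x) 2 x := by
    simpa using (hasDerivAt_id x).const_mul 2
  have := (Real.hasDerivAt_sinh (2*x)).comp x h1
  rw [mul_comm] at this; exact this

lemma f_deriv (e : ℝ) (k : ℕ) : ∀ x, HasDerivAt (f e k) (D e k x) x := by
  have key : ∀ k, (∀ x, HasDerivAt (f e k) (D e k x) x) ∧ (∀ x, HasDerivAt (f e (k+1)) (D e (k+1) x) x) := by
    intro k
    induction k with
    | zero =>
      constructor
      · intro x
        have : f e 0 = fun _ => 1 := by funext x; simp [f]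
        rw [this]; exact hasDerivAt_const x 1
      · intro x
        have h1 : f e (0+1) = fun x => cosh (2*x) + e * sinh (2*x) := by funext x; simp [f]
        rw [h1]
        have h2 := (hasDeriv_ch x).add ((hasDeriv_sh x).const_mul e)
        have h3 : D e (0+1) x = 2 * sinh (2*x) + e * (2 * cosh (2*x)) := by
          simp [D, f, gam]; ring
        rw [h3]; exact h2
    | succ k ih =>
      refine ⟨ih.2, fun x => ?_⟩
      have h2 : ((k:ℝ)+2) ≠ 0 := by positivity
      have hf : f e (k+1+1) = fun x => ((2*k+3) * (cosh (2*x) * f e (k+1) x) - gam e (k+1) * (sinh (2*x)^2 * f e k x)) / (k+2) := by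
        funext x
        rw [eq_div_iff h2, mul_comm]
        have := f_rec e k x
        rw [show k+1+1 = k+2 from rfl, this]; ring
      rw [hf]
      have d1 := ((hasDeriv_ch x).mul (ih.2 x)).const_mul (2*(k:ℝ)+3)
      have d2 := (((hasDeriv_sh x).pow 2).mul (ih.1 x)).const_mul (gam e (k+1))
      have d3 := (d1.sub d2).div_const ((k:ℝ)+2)
      have hval : D e (k+1+1) x = ((2*(k:ℝ)+3) * (2 * sinh (2*x) * f e (k+1) x + cosh (2*x) * D e (k+1) x) -
          gam e (k+1) * ((((2:ℕ):ℝ) * sinh (2*x)^(2-1) * (2 * cosh (2*x))) * f e k x + sinh (2*x)^2 * D e k x)) / (k+2) := by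
        rw [eq_div_iff h2]
        have hc := companion e k x
        have hr := f_rec e k x
        have hg : gam e (k+2) * (k+2) = gam e (k+1) * (k+1) + (2*k+3) := by
          have h1 : ((k:ℝ)+1) ≠ 0 := by positivity
          simp only [gam]; push_cast; field_simp; ring
        have hD1 : D e (k+1) x = 2 * e * f e (k+1) x + 2 * gam e (k+1) * sinh (2*x) * f e k x := rfl
        have hD2 : D e (k+1+1) x = 2 * e * f e (k+2) x + 2 * gam e (k+2) * sinh (2*x) * f e (k+1) x := rfl
        rw [hD2, hD1]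
        push_cast
        have e2 : sinh (2*x)^2 * D e k x = sinh (2*x) * (sinh (2*x) * D e k x) := by ring
        rw [e2, hc]
        simp only [pow_one]
        linear_combination (2*e) * hr + (2 * sinh (2*x) * f e (k+1) x) * hg
      rw [hval]
      exact d3
  exact (key k).1

/-- the remainder function -/
noncomputable def F (k : ℕ) (x : ℝ) : ℝ :=
  exp (x/2) * f (-(1/4)) k x - exp (-(x/2)) * f (1/4) k x

lemma F_deriv (k : ℕ) (x : ℝ) : HasDerivAt (F (k+1)) (2 * gam (1/4) (k+1) * sinh (2*x) * F k x) x := by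
  have h1 : HasDerivAt (fun x : ℝ => exp (x/2)) (exp (x/2) * (1/2)) x := by
    have : HasDerivAt (fun x : ℝ => x/2) (1/2) x := (hasDerivAt_id x).div_const 2
    exact this.exp
  have h2 : HasDerivAt (fun x : ℝ => exp (-(x/2))) (exp (-(x/2)) * (-(1/2))) x := by
    have : HasDerivAt (fun x : ℝ => -(x/2)) (-(1/2)) x := ((hasDerivAt_id x).div_const 2).neg
    exact this.exp
  have h3 := (h1.mul (f_deriv (-(1/4)) (k+1) x)).sub (h2.mul (f_deriv (1/4) (k+1) x))
  have hg : gam (-(1/4)) (k+1) = gam (1/4) (k+1) := by simp only [gam]; ring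
  have hval : 2 * gam (1/4) (k+1) * sinh (2*x) * F k x =
      exp (x/2) * (1/2) * f (-(1/4)) (k+1) x + exp (x/2) * D (-(1/4)) (k+1) x -
      (exp (-(x/2)) * (-(1/2)) * f (1/4) (k+1) x + exp (-(x/2)) * D (1/4) (k+1) x) := by
    rw [D, D, hg, F]; ring
  rw [hval]
  exact h3

lemma F_zero_deriv (x : ℝ) : HasDerivAt (F 0) (1/2 * (exp (x/2) + exp (-(x/2)))) x := by
  have h1 : HasDerivAt (fun x : ℝ => exp (x/2)) (exp (x/2) * (1/2)) x := by
    have : HasDerivAt (fun x : ℝ => x/2) (1/2) x := (hasDerivAt_id x).div_const 2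
    exact this.exp
  have h2 : HasDerivAt (fun x : ℝ => exp (-(x/2))) (exp (-(x/2)) * (-(1/2))) x := by
    have : HasDerivAt (fun x : ℝ => -(x/2)) (-(1/2)) x := ((hasDerivAt_id x).div_const 2).neg
    exact this.exp
  have h3 := h1.sub h2
  have : F 0 = fun x => exp (x/2) - exp (-(x/2)) := by
    funext x; simp [F, f]
  rw [this]
  have hv : 1/2 * (exp (x/2) + exp (-(x/2))) = exp (x/2) * (1/2) - exp (-(x/2)) * (-(1/2)) := by ring
  rw [hv]; exact h3

lemma f_at_zero (e e' : ℝ) (k : ℕ) : f e k 0 = f e' k 0 := by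
  have key : ∀ k, f e k 0 = f e' k 0 ∧ f e (k+1) 0 = f e' (k+1) 0 := by
    intro k
    induction k with
    | zero => constructor <;> simp [f]
    | succ k ih =>
      refine ⟨ih.2, ?_⟩
      have h1 := f_rec e k 0
      have h2 := f_rec e' k 0
      have h3 : ((k:ℝ)+2) ≠ 0 := by positivity
      apply mul_left_cancel₀ h3
      rw [show k+1+1 = k+2 from rfl, h1, h2, ih.2]; simp
  exact (key k).1

lemma F_at_zero (k : ℕ) : F k 0 = 0 := by
  rw [F, f_at_zero (-(1/4)) (1/4)]; simp

/-- comparison: equal at 0 and ordered derivatives gives ordered functions -/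
lemma compare (G : ℝ → ℝ) (G' : ℝ → ℝ) (hG : ∀ x, HasDerivAt G (G' x) x) (h0 : 0 ≤ G 0)
    (hpos : ∀ x, 0 ≤ x → 0 ≤ G' x) : ∀ x, 0 ≤ x → 0 ≤ G x := by
  intro x hx
  have hm : MonotoneOn G (Set.Ici 0) := by
    apply monotoneOn_of_deriv_nonneg (convex_Ici 0)
    · exact fun y _ => (hG y).continuousAt.continuousWithinAt
    · exact fun y _ => (hG y).differentiableAt.differentiableWithinAt
    · intro y hy
      rw [interior_Ici] at hy
      rw [(hG y).deriv]; exact hpos y (le_of_lt hy)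
  exact h0.trans (hm (Set.mem_Ici.2 le_rfl) hx hx)

lemma gam_pos (k : ℕ) : 0 < gam (1/4) (k+1) := by
  have h : (1:ℝ) ≤ (k:ℝ)+1 := by linarith [Nat.cast_nonneg (α := ℝ) k]
  rw [gam]; push_cast
  have : (1/4:ℝ)^2/(k+1) ≤ 1/16 := by
    rw [div_le_iff₀ (by linarith)]; nlinarith
  linarith

lemma gam_le (k : ℕ) : gam (1/4) (k+1) ≤ k+1 := by
  rw [gam]; push_cast
  have : 0 ≤ (1/4:ℝ)^2/(k+1) := by positivity
  linarith

theorem F_bound (k : ℕ) : ∀ x, 0 ≤ x → 0 ≤ F k x ∧ F k x ≤ sinh (2*x)^(2*k+1) / 2^(k+1) := by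
  induction k with
  | zero =>
    intro x hx
    have h1 : 0 ≤ F 0 x := by
      refine compare (F 0) _ F_zero_deriv (by rw [F_at_zero]) (fun y _ => by positivity) x hx
    refine ⟨h1, ?_⟩
    have h2 := compare (fun x => sinh (2*x)/2 - F 0 x) (fun x => (2*cosh (2*x))/2 - 1/2 * (exp (x/2) + exp (-(x/2))))
      (fun y => ((hasDeriv_sh y).div_const 2).sub (F_zero_deriv y)) (by simp [F_at_zero]) (fun y hy => by
        have e1 : 1/2 * (exp (y/2) + exp (-(y/2))) = cosh (y/2) := by rw [cosh_eq]; ring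
        rw [e1]
        have : cosh (y/2) ≤ cosh (2*y) := by
          rw [cosh_le_cosh, abs_of_nonneg (by linarith), abs_of_nonneg (by linarith)]; linarith
        linarith) x hx
    norm_num
    linarith
  | succ k ih =>
    intro x hx
    have hS : ∀ y : ℝ, 0 ≤ y → 0 ≤ sinh (2*y) := fun y hy => sinh_nonneg_iff.2 (by linarith)
    have h1 : 0 ≤ F (k+1) x := by
      refine compare (F (k+1)) _ (F_deriv k) (by rw [F_at_zero]) (fun y hy => ?_) x hx
      have := (ih y hy).1
      have := hS y hy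
      have := gam_pos k
      positivity
    refine ⟨h1, ?_⟩
    have h2 := compare (fun x => sinh (2*x)^(2*(k+1)+1)/2^(k+1+1) - F (k+1) x)
      (fun x => (((2*(k+1)+1 : ℕ):ℝ) * sinh (2*x)^(2*(k+1)+1-1) * (2*cosh (2*x)))/2^(k+1+1) -
        2 * gam (1/4) (k+1) * sinh (2*x) * F k x)
      (fun y => (((hasDeriv_sh y).pow (2*(k+1)+1)).div_const _).sub (F_deriv k y))
      (by simp [F_at_zero]) (fun y hy => by
        have hb := (ih y hy).2
        have hs := hS y hy
        have hg := gam_pos k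
        have hg2 := gam_le k
        have hc : 1 ≤ cosh (2*y) := one_le_cosh _
        have hpow : 0 ≤ sinh (2*y)^(2*(k+1)) := by positivity
        have b1 : 2 * gam (1/4) (k+1) * sinh (2*y) * F k y ≤ 2 * gam (1/4) (k+1) * sinh (2*y) * (sinh (2*y)^(2*k+1) / 2^(k+1)) :=
          mul_le_mul_of_nonneg_left hb (by positivity)
        have b2 : 2 * gam (1/4) (k+1) * sinh (2*y) * (sinh (2*y)^(2*k+1) / 2^(k+1)) =
            (2 * gam (1/4) (k+1)) * (sinh (2*y)^(2*(k+1)) / 2^(k+1)) := by ring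
        have b3 : (((2*(k+1)+1 : ℕ):ℝ) * sinh (2*y)^(2*(k+1)+1-1) * (2*cosh (2*y)))/2^(k+1+1) =
            ((2*k+3) * cosh (2*y)) * (sinh (2*y)^(2*(k+1)) / 2^(k+1)) := by
          rw [show 2*(k+1)+1-1 = 2*(k+1) by omega]; push_cast; rw [pow_succ (2:ℝ) (k+1)]; field_simp; ring
        rw [b3]
        have b4 : (2 * gam (1/4) (k+1)) * (sinh (2*y)^(2*(k+1)) / 2^(k+1)) ≤ ((2*k+3) * cosh (2*y)) * (sinh (2*y)^(2*(k+1)) / 2^(k+1)) := by
          apply mul_le_mul_of_nonneg_right _ (by positivity)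
          have hk : (0:ℝ) ≤ k := Nat.cast_nonneg k
          nlinarith
        linarith) x hx
    linarith

end Pool.Agent.Helper24.BPade3
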