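import Mathlib
import Pool.Agent.Helper24.BPade3

set_option autoImplicit false

namespace Pool.Agent.Helper24.BPade4

open Finset Pool.Agent.Helper24.BPade1 Pool.Agent.Helper24.BPade2 Pool.Agent.Helper24.BPade3 Real

theorem exists_theta (b : ℝ) (hb : 1 ≤ b) : ∃ θ : ℝ, 0 < θ ∧ θ^4 * (√(b+1) - 1) = √(b+1) + 1 ∧
    ∀ k, 0 ≤ θ * A (-(1/4)) (√(b+1)) 1 k - A (1/4) (√(b+1)) 1 k ∧
      θ * A (-(1/4)) (√(b+1)) 1 k - A (1/4) (√(b+1)) 1 k ≤ 2/(2^(k+1) * (√b)^(k+1)) := by
  set s := √b with hs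
  set B := √(b+1) with hB
  have hs2 : s^2 = b := sq_sqrt (by linarith)
  have hB2 : B^2 = b+1 := sq_sqrt (by linarith)
  have hs1 : 1 ≤ s := by rw [hs]; exact one_le_sqrt.2 hb
  have hB1 : 1 ≤ B := by rw [hB]; exact one_le_sqrt.2 (by linarith)
  have hs0 : s ≠ 0 := by linarith
  set x := arsinh (1/s) / 2 with hx
  have h2x : 2*x = arsinh (1/s) := by rw [hx]; ring
  have hsh : sinh (2*x) = 1/s := by rw [h2x, sinh_arsinh]
  have hch : cosh (2*x) = B/s := by
    rw [h2x, cosh_arsinh]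
    have : 1 + (1/s)^2 = (B/s)^2 := by field_simp; rw [hB2, hs2]
    rw [this, sqrt_sq (by positivity)]
  have hx0 : 0 ≤ x := by
    have : 0 ≤ arsinh (1/s) := arsinh_nonneg_iff.2 (by positivity)
    linarith
  have hex : exp x ^ 4 = ((B+1)/s)^2 := by
    have h1 : exp (2*x) = (B+1)/s := by
      rw [← cosh_add_sinh, hsh, hch]; ring
    have h2 : exp (2*x) = exp x ^ 2 := by rw [← exp_nat_mul]; norm_num
    rw [← h1, h2]; ring
  have hA : ∀ e k, A e B 1 k = s^k * f e k x := by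
    intro e k
    rw [f, hsh, hch]
    have := A_homog e (B/s) (1/s) s k
    rw [← this]
    congr 1 <;> field_simp
  have hE : exp (x/2) ≤ 2 := by
    by_contra hcon
    push Not at hcon
    have h1 : exp x ^ 2 = exp (x/2)^4 := by rw [← exp_nat_mul, ← exp_nat_mul]; congr 1; push_cast; ring
    have h2 : (16:ℝ) < exp (x/2)^4 := by
      have : (2:ℝ)^4 < exp (x/2)^4 := pow_lt_pow_left₀ hcon (by norm_num) (by norm_num)
      norm_num at this; exact this
    have h3 : (16:ℝ)^2 < exp x ^4 := by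
      have : exp x ^4 = (exp x ^2)^2 := by ring
      rw [this, h1]
      exact pow_lt_pow_left₀ h2 (by norm_num) (by norm_num)
    rw [hex, div_pow, lt_div_iff₀ (by positivity)] at h3
    nlinarith
  refine ⟨exp x, exp_pos x, ?_, ?_⟩
  · rw [hex, div_pow]
    have hb0 : b ≠ 0 := by linarith
    rw [hs2, div_mul_eq_mul_div, div_eq_iff hb0]
    have : (B-1)*(B+1) = b := by linear_combination hB2
    linear_combination (B+1) * this
  · intro k
    have hR : exp x * A (-(1/4)) B 1 k - A (1/4) B 1 k = s^k * (exp (x/2) * F k x) := by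
      rw [hA, hA, F]
      have h1 : exp (x/2) * exp (x/2) = exp x := by rw [← exp_add]; congr 1; ring
      have h2 : exp (x/2) * exp (-(x/2)) = 1 := by rw [← exp_add]; simp
      linear_combination (-(s^k * f (-(1/4)) k x)) * h1 + (s^k * f (1/4) k x) * h2
    rw [hR]
    obtain ⟨f1, f2⟩ := F_bound k x hx0
    have hsk : 0 < s^k := by positivity
    constructor
    · have := exp_pos (x/2); positivity
    · rw [hsh] at f2
      have g1 : exp (x/2) * F k x ≤ 2 * ((1/s)^(2*k+1) / 2^(k+1)) :=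
        mul_le_mul hE f2 f1 (by norm_num)
      have g2 := mul_le_mul_of_nonneg_left g1 hsk.le
      refine g2.trans (le_of_eq ?_)
      rw [one_div, inv_pow]
      have : s^(2*k+1) = s^k * s^(k+1) := by ring
      rw [this]
      field_simp

section growth

variable (B α : ℝ)

lemma growth (hα : α^2 + 1 = 2*B*α) (hB : 2 ≤ B) (hα2 : 2 ≤ α) (k : ℕ) :
    0 < A (-(1/4)) B 1 k ∧ A (-(1/4)) B 1 k ≤ A (-(1/4)) B 1 (k+1) ∧
      A (-(1/4)) B 1 (k+1) ≤ α * A (-(1/4)) B 1 k := by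
  induction k with
  | zero =>
    simp only [A_zero, A_one, zero_add]
    refine ⟨by norm_num, by linarith, ?_⟩
    nlinarith
  | succ k ih =>
    obtain ⟨h0, h1, h2⟩ := ih
    set p := A (-(1/4)) B 1 k
    set q := A (-(1/4)) B 1 (k+1)
    have hr := A_rec (-(1/4)) B 1 k
    set r := A (-(1/4)) B 1 (k+2)
    set g := ((k:ℝ)+1) - (-(1/4))^2/(k+1) with hg
    have hk : (0:ℝ) ≤ k := Nat.cast_nonneg k
    have hg1 : g ≤ k+1 := by
      rw [hg]; have : 0 ≤ (-(1/4:ℝ))^2/(k+1) := by positivity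
      linarith
    have hg2 : (k:ℝ)+15/16 ≤ g := by
      rw [hg]; have : (-(1/4:ℝ))^2/(k+1) ≤ 1/16 := by
        rw [div_le_iff₀ (by positivity)]; nlinarith
      linarith
    have hr' : ((k:ℝ)+2) * r = (2*k+3)*B*q - g * p := by
      rw [hr]; change _ - g * 1^2 * p = _; ring
    have hq : 0 < q := lt_of_lt_of_le h0 h1
    have hg0 : 0 < g := by linarith
    refine ⟨hq, ?_, ?_⟩
    · have a1 : g * p ≤ (k+1) * q := mul_le_mul hg1 h1 h0.le (by positivity)
      have a2 : (2*(k:ℝ)+3)*2*q ≤ (2*k+3)*B*q := by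
        apply mul_le_mul_of_nonneg_right _ hq.le
        apply mul_le_mul_of_nonneg_left hB (by positivity)
      have a3 : ((k:ℝ)+2) * q ≤ (k+2) * r := by
        rw [hr']; nlinarith
      exact le_of_mul_le_mul_left a3 (by positivity)
    · have a1 : g * q ≤ α * (g * p) := by
        have := mul_le_mul_of_nonneg_left h2 hg0.le
        linarith
      have a2 : α * (((k:ℝ)+2) * r) ≤ α * ((k+2) * (α * q)) := by
        rw [hr']
        have e1 : α * ((2*k+3)*B*q - g*p) = (2*k+3)*(α^2+1)/2*q - α*(g*p) := by rw [hα]; ring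
        rw [e1]
        have e2 : (2*(k:ℝ)+3)*(α^2+1)/2*q - g*q ≤ α * ((k+2) * (α * q)) := by
          have : 0 ≤ (α^2/2 - ((k+3/2) - g)) * q := by
            apply mul_nonneg _ hq.le
            nlinarith
          nlinarith
        linarith
      have a3 : ((k:ℝ)+2) * r ≤ (k+2) * (α * q) := le_of_mul_le_mul_left a2 (by linarith)
      exact le_of_mul_le_mul_left a3 (by positivity)

lemma growth' (hα : α^2 + 1 = 2*B*α) (hB : 2 ≤ B) (hα2 : 2 ≤ α) (k : ℕ) :
    A (-(1/4)) B 1 k ≤ α^k := by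
  induction k with
  | zero => simp
  | succ k ih =>
    have := (growth B α hα hB hα2 k).2.2
    rw [pow_succ, mul_comm]
    exact this.trans (mul_le_mul_of_nonneg_left ih (by linarith))

end growth

lemma det_pos (C : ℝ) (k : ℕ) :
    0 < A (1/4) C 1 (k+1) * A (-(1/4)) C 1 k - A (1/4) C 1 k * A (-(1/4)) C 1 (k+1) := by
  induction k with
  | zero => simp
  | succ k ih =>
    have h1 := A_rec (1/4) C 1 k
    have h2 := A_rec (-(1/4)) C 1 k
    have hg := gam_pos k
    have hk : (0:ℝ) < (k:ℝ)+2 := by positivity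
    have hgam : gam (1/4) (k+1) = (k+1) - (1/4)^2/(k+1) := by rw [gam]; push_cast; ring
    rw [hgam] at hg
    have e : ((k:ℝ)+2) * (A (1/4) C 1 (k+1+1) * A (-(1/4)) C 1 (k+1) - A (1/4) C 1 (k+1) * A (-(1/4)) C 1 (k+1+1)) =
        ((k+1) - (1/4)^2/(k+1)) * (A (1/4) C 1 (k+1) * A (-(1/4)) C 1 k - A (1/4) C 1 k * A (-(1/4)) C 1 (k+1)) := by
      rw [show k+1+1 = k+2 from rfl]
      linear_combination (A (-(1/4)) C 1 (k+1)) * h1 - (A (1/4) C 1 (k+1)) * h2
    have : 0 < ((k:ℝ)+2) * (A (1/4) C 1 (k+1+1) * A (-(1/4)) C 1 (k+1) - A (1/4) C 1 (k+1) * A (-(1/4)) C 1 (k+1+1)) := by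
      rw [e]; exact mul_pos hg ih
    exact (mul_pos_iff_of_pos_left hk).1 this

end Pool.Agent.Helper24.BPade4
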