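import Mathlib
import Pool.Agent.Helper24.BNT
import Pool.Agent.Helper24.BSeq
import Pool.Agent.Helper24.BPade4

set_option autoImplicit false

namespace Pool.Agent.Helper24.BH

open Pool.Agent.Helper24.BPade1 Pool.Agent.Helper24.BPade2 Pool.Agent.Helper24.BPade4 Pool.Agent.Helper24.BSeq
open Pool.Agent.Helper24.BNT

lemma split {A A' c U : ℕ} (hcop : Nat.Coprime A A') (hU : 0 < U) (e : A*A' = c*U^2) :
    ∃ b1 b2 m n : ℕ, A = b1*m^2 ∧ A' = b2*n^2 ∧ b1*b2 = c ∧ m*n = U := by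
  have h1 := Nat.Coprime.gcd_mul (U^2) hcop
  have h2 : Nat.gcd (U^2) (A*A') = U^2 := Nat.gcd_eq_left ⟨c, by rw [e]; ring⟩
  rw [h2] at h1
  have h3 : Nat.Coprime (Nat.gcd (U^2) A) (Nat.gcd (U^2) A') :=
    Nat.Coprime.coprime_dvd_left (Nat.gcd_dvd_right _ _) (Nat.Coprime.coprime_dvd_right (Nat.gcd_dvd_right _ _) hcop)
  obtain ⟨⟨m, hm⟩, ⟨n, hn⟩⟩ := sq_of_cop h3 h1.symm
  obtain ⟨b1, hb1⟩ := Nat.gcd_dvd_right (U^2) A
  obtain ⟨b2, hb2⟩ := Nat.gcd_dvd_right (U^2) A'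
  rw [hm] at hb1
  rw [hn] at hb2
  rw [hm, hn, ← mul_pow] at h1
  have hU2 : m * n = U := (Nat.pow_left_injective (n := 2) (by norm_num) h1).symm
  refine ⟨b1, b2, m, n, by rw [hb1]; ring, by rw [hb2]; ring, ?_, hU2⟩
  have h4 : (b1*b2) * U^2 = c*U^2 := by
    rw [← e, hb1, hb2, ← hU2]; ring
  exact Nat.eq_of_mul_eq_mul_right (by positivity) h4

theorem core (b b1 b2 m n : ℕ) (hb : 1025 ≤ b) (h12 : b1*b2 = b+1) (hmn : 0 < m*n) (T : ℝ)
    (g : ℕ) (hg : 1 ≤ g)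
    (hpell : T^2 = 1 + 4*b*(b+1)*(m*n)^2)
    (hsum : (b2:ℝ)*n^2 + b1*m^2 = T + 2*(b+1)*(m*n))
    (hlt : (b1:ℝ)*m^2 < b2*n^2)
    (hα : T + 2*√((b:ℝ)+1)*√(b:ℝ)*(m*n) = (√((b:ℝ)+1)+√(b:ℝ))^(2*g)) : False := by
  set s := √(b:ℝ) with hs
  set B := √((b:ℝ)+1) with hB
  set β1 := √(b1:ℝ) with hβ1
  set β2 := √(b2:ℝ) with hβ2
  clear_value s B β1 β2
  have hbr : (1025:ℝ) ≤ b := by exact_mod_cast hb
  have hs2 : s^2 = b := by rw [hs]; exact Real.sq_sqrt (by linarith)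
  have hB2 : B^2 = b+1 := by rw [hB]; exact Real.sq_sqrt (by linarith)
  have hb1' : b1 ≠ 0 := by rintro rfl; simp at h12
  have hb2' : b2 ≠ 0 := by rintro rfl; simp at h12
  have hb1r : (1:ℝ) ≤ b1 := by exact_mod_cast Nat.one_le_iff_ne_zero.2 hb1'
  have hb2r : (1:ℝ) ≤ b2 := by exact_mod_cast Nat.one_le_iff_ne_zero.2 hb2'
  have hβ12 : β1^2 = b1 := by rw [hβ1]; exact Real.sq_sqrt (by linarith)
  have hβ22 : β2^2 = b2 := by rw [hβ2]; exact Real.sq_sqrt (by linarith)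
  have hβ1_1 : 1 ≤ β1 := by rw [hβ1]; exact Real.one_le_sqrt.2 hb1r
  have hβ2_1 : 1 ≤ β2 := by rw [hβ2]; exact Real.one_le_sqrt.2 hb2r
  have hββ : β1 * β2 = B := by
    rw [hβ1, hβ2, hB, ← Real.sqrt_mul (by linarith)]; congr 1; exact_mod_cast h12
  have hs32 : 32 ≤ s := by rw [hs]; apply Real.le_sqrt_of_sq_le; linarith
  have hB32 : 32 ≤ B := by rw [hB]; apply Real.le_sqrt_of_sq_le; linarith
  have hsB : s ≤ B := by rw [hs, hB]; exact Real.sqrt_le_sqrt (by linarith)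
  have hBs : B ≤ s + 1 := by
    rw [hB]; apply Real.sqrt_le_iff.2; constructor
    · linarith
    · nlinarith
  have hBb : 32 * B ≤ b := by
    have : B ≤ b/32 := by
      rw [hB]; apply Real.sqrt_le_iff.2; constructor
      · linarith
      · nlinarith
    linarith
  set α := B + s with hαdef
  have hα64 : 64 ≤ α := by linarith
  have hαb : 16 * α ≤ b := by linarith
  have hα0 : 0 < α := by linarith
  have hαq : α^2 + 1 = 2*B*α := by rw [hαdef]; linear_combination hs2 - hB2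
  set U : ℝ := (m:ℝ)*n with hU
  have hU0 : 0 < U := by rw [hU]; exact_mod_cast hmn
  clear_value U α
  have hm0 : (0:ℝ) < m := by
    have : 0 < m := by
      rcases Nat.eq_zero_or_pos m with h0 | h0
      · subst h0; simp at hmn
      · exact h0
    exact_mod_cast this
  have hn0 : (0:ℝ) < n := by
    have : 0 < n := by
      rcases Nat.eq_zero_or_pos n with h0 | h0
      · subst h0; simp at hmn
      · exact h0
    exact_mod_cast this
  set E := β2*n + β1*m with hE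
  set E' := β2*n - β1*m with hE'
  clear_value E E'
  have hE2 : E^2 = T + 2*B*(B+1)*U := by
    have : E^2 = (b2:ℝ)*n^2 + b1*m^2 + 2*B*U := by
      rw [hE, hU, ← hββ, ← hβ12, ← hβ22]; ring
    rw [this, hsum, ← hB2]; ring
  have hE'2 : E'^2 = T + 2*B*(B-1)*U := by
    have : E'^2 = (b2:ℝ)*n^2 + b1*m^2 - 2*B*U := by
      rw [hE', hU, ← hββ, ← hβ12, ← hβ22]; ring
    rw [this, hsum, ← hB2]; ring
  have hE0 : 0 < E := by rw [hE]; positivity
  have hE'0 : 0 < E' := by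
    rw [hE']
    have : (β1*m)^2 < (β2*n)^2 := by rw [mul_pow, mul_pow, hβ12, hβ22]; exact hlt
    have := lt_of_pow_lt_pow_left₀ 2 (by positivity) this
    linarith
  have hαE : α^g ≤ E := by
    have h : (α^g)^2 ≤ E^2 := by
      rw [hE2, ← pow_mul, mul_comm g 2, ← hα]
      have : 2*B*s*U ≤ 2*B*(B+1)*U := by
        apply mul_le_mul_of_nonneg_right _ hU0.le
        apply mul_le_mul_of_nonneg_left _ (by linarith); linarith
      linarith
    exact (pow_le_pow_iff_left₀ (by positivity) hE0.le (by norm_num)).1 h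
  have hE'α : E' ≤ α^g := by
    have h : E'^2 ≤ (α^g)^2 := by
      rw [hE'2, ← pow_mul, mul_comm g 2, ← hα]
      have : 2*B*(B-1)*U ≤ 2*B*s*U := by
        apply mul_le_mul_of_nonneg_right _ hU0.le
        apply mul_le_mul_of_nonneg_left _ (by linarith); linarith
      linarith
    exact (pow_le_pow_iff_left₀ hE'0.le (by positivity) (by norm_num)).1 h
  have hquart : (B+1)*E'^4 - (B-1)*E^4 = 2 := by
    have e1 : E'^4 = (E'^2)^2 := by ring
    have e2 : E^4 = (E^2)^2 := by ring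
    rw [e1, e2, hE2, hE'2]
    have hp : T^2 = 1 + 4*(B^2-1)*B^2*U^2 := by rw [hpell, hB2]; ring
    linear_combination 2 * hp
  obtain ⟨θ, hθ0, hθ4, hR⟩ := exists_theta b (by linarith)
  rw [← hB] at hθ4
  -- x = θ E' - E
  set x := θ*E' - E with hx
  clear_value x
  have hx1 : (B-1) * (x * ((θ*E' + E) * ((θ*E')^2 + E^2))) = 2 := by
    have : x * ((θ*E' + E) * ((θ*E')^2 + E^2)) = θ^4*E'^4 - E^4 := by rw [hx]; ring
    rw [this, mul_sub]
    linear_combination E'^4 * hθ4 + hquart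
  have hx0 : 0 < x := by
    have h1 : 0 < (B-1) * ((θ*E' + E) * ((θ*E')^2 + E^2)) := by
      have : 0 < B-1 := by linarith
      positivity
    have h2 : (B-1) * (x * ((θ*E' + E) * ((θ*E')^2 + E^2))) = ((B-1) * ((θ*E' + E) * ((θ*E')^2 + E^2))) * x := by ring
    rw [h2] at hx1
    exact (mul_pos_iff_of_pos_left h1).1 (by rw [hx1]; norm_num)
  have hx2 : x * (2*(B-1)*E^3) ≤ 1 := by
    have h1 : E ≤ θ*E' := by linarith
    have h2 : 4*E^3 ≤ (θ*E' + E) * ((θ*E')^2 + E^2) := by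
      have a1 : 2*E ≤ θ*E' + E := by linarith
      have a2 : 2*E^2 ≤ (θ*E')^2 + E^2 := by
        have := pow_le_pow_left₀ hE0.le h1 2
        linarith
      have := mul_le_mul a1 a2 (by positivity) (by positivity)
      linarith
    have h3 : 0 < B-1 := by linarith
    have h4 : (B-1) * (x * (4*E^3)) ≤ (B-1) * (x * ((θ*E' + E) * ((θ*E')^2 + E^2))) := by
      apply mul_le_mul_of_nonneg_left _ h3.le
      exact mul_le_mul_of_nonneg_left h2 hx0.le
    rw [hx1] at h4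
    linarith
  -- the linear forms
  have small : ∀ k, (k = 2*g ∨ k+1 = 2*g) →
      |8^k * (A (1/4) B 1 k * E' - A (-(1/4)) B 1 k * E)| < 2 := by
    intro k hk
    obtain ⟨r1, r2⟩ := hR k
    rw [← hB] at r1 r2
    rw [← hs] at r2
    have p1 := growth' B α hαq (by linarith) (by linarith) k
    have p0 := (growth B α hαq (by linarith) (by linarith) k).1
    set P := A (1/4) B 1 k
    set Q := A (-(1/4)) B 1 k
    have e1 : 8^k * (P * E' - Q * E) = 8^k * Q * x - 8^k * (θ*Q - P) * E' := by rw [hx]; ring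
    have b1 : 8^k * Q * x < 1 := by
      have c1 : (8:ℝ)^k * Q ≤ (8*α)^k := by
        rw [mul_pow]; exact mul_le_mul_of_nonneg_left p1 (by positivity)
      have c2 : (8*α)^k ≤ (8*α)^(2*g) := pow_le_pow_right₀ (by linarith) (by omega)
      have c3 : (8*α)^(2*g) ≤ (α^g)^3 := by
        have e3 : (α^g)^3 = (α^3)^g := by rw [← pow_mul, ← pow_mul, mul_comm]
        rw [e3, pow_mul]
        apply pow_le_pow_left₀ (by positivity)
        have := mul_le_mul_of_nonneg_right hα64 (sq_nonneg α)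
        linarith
      have c4 : (α^g)^3 ≤ E^3 := pow_le_pow_left₀ (by positivity) hαE 3
      have c5 : 8^k * Q * x ≤ E^3 * x := mul_le_mul_of_nonneg_right (c1.trans (c2.trans (c3.trans c4))) hx0.le
      have c6 : 0 < E^3 * x := by positivity
      have c7 : 2 * (E^3*x) < 1 + 1 := by
        have h1 : (2*(B-1)) * (E^3*x) ≤ 1 := by linarith
        have h2 : 2 * (E^3*x) ≤ (2*(B-1)) * (E^3*x) := mul_le_mul_of_nonneg_right (by linarith) c6.le
        linarith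
      linarith
    have b1' : 0 ≤ 8^k * Q * x := by positivity
    have b2 : 8^k * (θ*Q - P) * E' < 1 := by
      have c1 : 8^k * (θ*Q - P) * E' ≤ 8^k * (2/(2^(k+1) * s^(k+1))) * α^g := by
        apply mul_le_mul (mul_le_mul_of_nonneg_left r2 (by positivity)) hE'α hE'0.le (by positivity)
      have c2 : (8:ℝ)^k * (2/(2^(k+1) * s^(k+1))) * α^g = 4^k * α^g / s^(k+1) := by
        have : (8:ℝ)^k = 4^k * 2^k := by rw [← mul_pow]; norm_num
        rw [this, pow_succ (2:ℝ) k]; field_simp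
      rw [c2] at c1
      refine lt_of_le_of_lt c1 ?_
      rw [div_lt_one (by positivity)]
      have d1 : (16*α)^g ≤ (s^2)^g := pow_le_pow_left₀ (by positivity) (by rw [hs2]; exact hαb) g
      have d2 : 0 < (s^2)^g := by positivity
      rcases hk with hk | hk
      · have f1 : (4:ℝ)^k * α^g = (16*α)^g := by rw [hk, pow_mul, ← mul_pow]; norm_num
        have f2 : s^(k+1) = (s^2)^g * s := by rw [hk, pow_succ, pow_mul]
        rw [f1, f2]
        have : (s^2)^g * 32 ≤ (s^2)^g * s := mul_le_mul_of_nonneg_left hs32 d2.le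
        linarith
      · have f1 : 4 * ((4:ℝ)^k * α^g) = (16*α)^g := by
          have : 4 * (4:ℝ)^k = 4^(2*g) := by rw [← hk]; ring
          rw [← mul_assoc, this, pow_mul, ← mul_pow]; norm_num
        have f2 : s^(k+1) = (s^2)^g := by rw [hk, pow_mul]
        rw [f2]
        linarith
    have b2' : 0 ≤ 8^k * (θ*Q - P) * E' := by positivity
    rw [e1, abs_lt]; constructor <;> linarith
  have int_zero : ∀ (β : ℝ) (Z : ℤ), 1 ≤ β → |2*β*(Z:ℝ)| < 2 → Z = 0 := by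
    intro β Z hβ h
    by_contra hZ
    have h1 : (1:ℝ) ≤ |(Z:ℝ)| := by exact_mod_cast Int.one_le_abs hZ
    rw [abs_mul, abs_of_pos (by linarith : (0:ℝ) < 2*β)] at h
    have := mul_le_mul (by linarith : (2:ℝ) ≤ 2*β) h1 (by norm_num) (by linarith)
    linarith
  have zero : ∀ k, (k = 2*g ∨ k+1 = 2*g) →
      A (1/4) B 1 k * E' - A (-(1/4)) B 1 k * E = 0 := by
    intro k hk
    have hsm := small k hk
    obtain ⟨X, Y, h1, h2⟩ := integrality ((b:ℤ)+1) B (by rw [hB2]; push_cast; ring) k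
    have h8 : (8:ℝ)^k ≠ 0 := by positivity
    have e0 : 8^k * (A (1/4) B 1 k * E' - A (-(1/4)) B 1 k * E) =
        (X + Y*B) * E' - (-1)^k * (X - Y*B) * E := by rw [← h1, ← h2]; ring
    rcases hk with hk | hk
    · have hp : (-1:ℝ)^k = 1 := by rw [hk, pow_mul]; norm_num
      have e1 : (X + Y*B) * E' - (-1)^k * (X - Y*B) * E = 2*β1*((Y*b2*n - X*m : ℤ):ℝ) := by
        rw [hp, hE, hE', ← hββ]; push_cast; rw [← hβ22]; ring
      rw [e0, e1] at hsm
      have hZ := int_zero β1 _ hβ1_1 hsm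
      rw [e1, hZ] at e0
      have : 8^k * (A (1/4) B 1 k * E' - A (-(1/4)) B 1 k * E) = 0 := by rw [e0]; simp
      exact (mul_eq_zero.1 this).resolve_left h8
    · have hp : (-1:ℝ)^k = -1 := by
        have : (-1:ℝ)^(k+1) = 1 := by rw [hk, pow_mul]; norm_num
        rw [pow_succ] at this; linarith
      have e1 : (X + Y*B) * E' - (-1)^k * (X - Y*B) * E = 2*β2*((X*n - Y*b1*m : ℤ):ℝ) := by
        rw [hp, hE, hE', ← hββ]; push_cast; rw [← hβ12]; ring
      rw [e0, e1] at hsm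
      have hZ := int_zero β2 _ hβ2_1 hsm
      rw [e1, hZ] at e0
      have : 8^k * (A (1/4) B 1 k * E' - A (-(1/4)) B 1 k * E) = 0 := by rw [e0]; simp
      exact (mul_eq_zero.1 this).resolve_left h8
  obtain ⟨k, hk⟩ : ∃ k, k + 1 = 2*g := ⟨2*g-1, by omega⟩
  have z1 := zero k (Or.inr hk)
  have z2 := zero (k+1) (Or.inl hk)
  have hd := det_pos B k
  have : (A (1/4) B 1 (k+1) * A (-(1/4)) B 1 k - A (1/4) B 1 k * A (-(1/4)) B 1 (k+1)) * E' = 0 := by
    linear_combination (A (-(1/4)) B 1 k) * z2 - (A (-(1/4)) B 1 (k+1)) * z1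
  have := mul_pos hd hE'0
  linarith

lemma pow_alpha (b : ℕ) (n : ℕ) : ((t (2*b+1) n : ℤ) : ℝ) + 2*√((b:ℝ)+1)*√(b:ℝ)*((u (2*b+1) n : ℤ) : ℝ) =
    (√((b:ℝ)+1)+√(b:ℝ))^(2*n) := by
  have hb : (0:ℝ) ≤ b := Nat.cast_nonneg b
  have hs2 : √(b:ℝ)^2 = b := Real.sq_sqrt hb
  have hB2 : √((b:ℝ)+1)^2 = b+1 := Real.sq_sqrt (by linarith)
  generalize √(b:ℝ) = s at *
  generalize √((b:ℝ)+1) = B at *
  induction n with
  | zero => simp
  | succ n ih =>
    have e1 : (B+s)^(2*(n+1)) = (B+s)^(2*n) * (B^2 + s^2 + 2*B*s) := by ring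
    rw [e1, ← ih, t_succ, u_succ]
    push_cast
    generalize ((t (2*b+1) n : ℤ) : ℝ) = T
    generalize ((u (2*b+1) n : ℤ) : ℝ) = U
    linear_combination (-(T + 2*B*s*U) - 4*s^2*U) * hB2 + (-(T+2*B*s*U) - 4*((b:ℝ)+1)*U) * hs2

theorem thmH {b : ℤ} (hb : 1025 ≤ b) {g : ℕ} (hg : 1 ≤ g) {c : ℕ} (h : W (2*b+1) (2*g) = (c:ℤ)^2) :
    False := by
  obtain ⟨b, rfl⟩ : ∃ b' : ℕ, b = (b':ℤ) := ⟨b.toNat, by omega⟩
  have hy : (1:ℤ) ≤ 2*b+1 := by omega
  have hbn : 1025 ≤ b := by exact_mod_cast hb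
  have ht := t_pos hy g
  have hu := u_ge hy g
  obtain ⟨T, hT⟩ : ∃ T : ℕ, t (2*b+1) g = (T:ℤ) := ⟨(t (2*b+1) g).toNat, by omega⟩
  obtain ⟨U, hU⟩ : ∃ U : ℕ, u (2*b+1) g = (U:ℤ) := ⟨(u (2*b+1) g).toNat, by omega⟩
  have hp := pell (2*b+1) g
  have hα := pow_alpha b g
  rw [W_double] at h
  rw [hT, hU] at h hp hα
  rw [hT] at ht
  rw [hU] at hu
  have hU0 : 0 < U := by omega
  have hpN : T^2 = 1 + 4*b*(b+1)*U^2 := by
    have : ((T^2 : ℕ):ℤ) = ((1 + 4*b*(b+1)*U^2 : ℕ) : ℤ) := by push_cast; linear_combination hp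
    exact_mod_cast this
  have hc : c^2 + 4*(b+1)*U^2 = (T+2*(b+1)*U)^2 := by
    have : ((c^2 + 4*(b+1)*U^2 : ℕ):ℤ) = (((T+2*(b+1)*U)^2 : ℕ) : ℤ) := by
      push_cast; linear_combination hp - h
    exact_mod_cast this
  have hcW : c ≤ T+2*(b+1)*U := by
    have : c^2 ≤ (T+2*(b+1)*U)^2 := by omega
    exact (Nat.pow_le_pow_iff_left (by norm_num)).1 this
  obtain ⟨d, hd⟩ := Nat.exists_eq_add_of_le hcW
  have hdc : d * (2*c+d) = 4*(b+1)*U^2 := by
    rw [hd] at hc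
    have : c^2 + d*(2*c+d) = c^2 + 4*(b+1)*U^2 := by rw [hc]; ring
    omega
  have hdeven : Even d := by
    by_contra hcon
    rw [Nat.not_even_iff_odd] at hcon
    have h1 : Odd (d * (2*c+d)) := hcon.mul (Even.add_odd (even_two_mul c) hcon)
    rw [hdc] at h1
    have h2 : Even (4*(b+1)*U^2) := by
      have : 4*(b+1)*U^2 = 2*(2*(b+1)*U^2) := by ring
      rw [this]; exact even_two_mul _
    exact (Nat.not_even_iff_odd.2 h1) h2
  obtain ⟨A, hA⟩ := hdeven
  have hAA : A * (A+c) = (b+1)*U^2 := by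
    have : 4*(A*(A+c)) = 4*((b+1)*U^2) := by
      have : 4*(A*(A+c)) = d*(2*c+d) := by rw [hA]; ring
      rw [this, hdc]; ring
    omega
  have hcop : Nat.Coprime A (A+c) := by
    by_contra hcon
    obtain ⟨p, hpp, hpa, hpb⟩ := Nat.Prime.not_coprime_iff_dvd.1 hcon
    have h1 : p ∣ (b+1)*U^2 := by rw [← hAA]; exact Dvd.dvd.mul_right hpa _
    have h2 : p ∣ (b+1)*U := by
      rcases (Nat.Prime.dvd_mul hpp).1 h1 with h | h
      · exact Dvd.dvd.mul_right h _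
      · exact Dvd.dvd.mul_left (hpp.dvd_of_dvd_pow h) _
    have h3 : p ∣ T + 2*(b+1)*U := by
      rw [hd, hA]
      have : c + (A+A) = A + (A+c) := by ring
      rw [this]; exact dvd_add hpa hpb
    have h4 : p ∣ T := by
      have : 2*(b+1)*U = 2*((b+1)*U) := by ring
      rw [this] at h3
      exact (Nat.dvd_add_left (Dvd.dvd.mul_left h2 2)).1 h3
    have h5 : p ∣ 1 + 4*b*(b+1)*U^2 := by rw [← hpN]; exact dvd_pow h4 (by norm_num)
    have h6 : p ∣ 4*b*(b+1)*U^2 := by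
      have : 4*b*(b+1)*U^2 = 4*b*((b+1)*U^2) := by ring
      rw [this]; exact Dvd.dvd.mul_left h1 _
    have h7 : p ∣ 1 := (Nat.dvd_add_left h6).1 h5
    exact hpp.one_lt.ne' (Nat.dvd_one.1 h7)
  have hc0 : 0 < c := by
    rcases Nat.eq_zero_or_pos c with h0 | h0
    · exfalso
      rw [h0] at h
      have h1 : (1:ℤ) ≤ (T:ℤ) := by omega
      have h2 : (0:ℤ) ≤ (U:ℤ) := by omega
      push_cast at h
      nlinarith [mul_nonneg (mul_nonneg (by omega : (0:ℤ) ≤ 2*b+1+1) (by omega : (0:ℤ) ≤ T)) h2]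
    · exact h0
  obtain ⟨b1, b2, m, n, hm, hn, hb12, hmn⟩ := split hcop hU0 hAA
  have hUr : (m:ℝ)*n = U := by exact_mod_cast hmn
  refine core b b1 b2 m n hbn hb12 (by rw [hmn]; exact hU0) (T:ℝ) g hg ?_ ?_ ?_ ?_
  · rw [hUr]; exact_mod_cast hpN
  · rw [hUr]
    have : b2*n^2 + b1*m^2 = T + 2*(b+1)*U := by
      rw [← hm, ← hn, hd, hA]; ring
    exact_mod_cast this
  · have : b1*m^2 < b2*n^2 := by rw [← hm, ← hn]; omega
    exact_mod_cast this
  · rw [hUr]; exact_mod_cast hα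

end Pool.Agent.Helper24.BH
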