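import Mathlib
import Pool.Agent.Helper24.BNT
import Pool.Agent.Helper24.BSeq
import Pool.Agent.Helper24.BOdd2
import Pool.Agent.Helper24.BFin
import Pool.Agent.Helper24.BEven2
import Pool.Agent.Helper24.BH

set_option autoImplicit false

namespace Pool.Agent.Helper24.BMain

open Pool.Agent.Helper24.BSeq Pool.Agent.Helper24.BNT

/-- no square among `W_h`, odd `y`. -/
theorem odd_thm {b : ℤ} (hb : 1 ≤ b) {h : ℕ} (hh : 1 ≤ h) (hs : ∃ c, BOdd.w (2*b+1) h = c^2) : False := by
  obtain ⟨q, l, hp, hl, ⟨c1, hc1⟩, ⟨c2, hc2⟩, -⟩ := BOdd2.reduce (by omega : 0 ≤ b) hh hs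
  have hy : (1:ℤ) ≤ 2*b+1 := by omega
  have hq : 1 ≤ q := by
    rcases Nat.eq_zero_or_pos q with h0 | h0
    · subst h0; exact absurd hp (by decide)
    · exact h0
  rcases le_or_gt 1025 (b * W (2*b+1) l ^ 2) with hbig | hsmall
  · have hg : 1 ≤ q*(q+1) := Nat.mul_pos hq (by omega)
    have hcast := BOdd.w_cast (y := 2*(b * W (2*b+1) l ^ 2)+1) (by omega) (2*(q*(q+1)))
    rw [hc1] at hcast
    push_cast at hcast
    exact BH.thmH hbig hg (c := c1) hcast.symm
  · rcases hl with hl | hl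
    · subst hl
      rw [W_zero, one_pow, mul_one] at hc1 hc2 hsmall
      exact BFin.fin_check hb (by omega) hp ⟨c2, hc2⟩ ⟨c1, hc1⟩
    · exfalso
      have h1 : (2*b+1)^l ≤ t (2*b+1) l := t_ge_pow hy l
      have h2 : (3:ℤ)^4 ≤ (2*b+1)^l :=
        (pow_le_pow_left₀ (by norm_num) (by omega : (3:ℤ) ≤ 2*b+1) 4).trans (pow_le_pow_right₀ hy hl)
      have h3 : t (2*b+1) l ≤ W (2*b+1) l := by
        have := u_nonneg hy l
        unfold W; nlinarith
      have h4 : (81:ℤ) ≤ W (2*b+1) l := by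
        have : (3:ℤ)^4 = 81 := by norm_num
        linarith
      nlinarith

lemma odd_thm' {b : ℤ} (hb : 1 ≤ b) {h : ℕ} (hh : 1 ≤ h) {c : ℤ} (hc : W (2*b+1) h = c^2) : False := by
  apply odd_thm hb hh
  refine ⟨c.natAbs, ?_⟩
  have h1 := BOdd.w_cast (y := 2*b+1) (by omega) h
  have h2 : ((BOdd.w (2*b+1) h : ℕ) : ℤ) = ((c.natAbs^2 : ℕ) : ℤ) := by
    rw [h1, hc]; push_cast; rw [sq_abs]
  exact_mod_cast h2

lemma even_thm' {c : ℤ} (hc : 1 ≤ c) {h : ℕ} (hh : 2 ≤ h) {x : ℤ} (hx : W (2*c) h = x^2) : False := by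
  apply BEven2.even_main hc hh
  refine ⟨x.natAbs, ?_⟩
  have h1 := BEven.w_cast (y := 2*c) (by omega) h
  have h2 : ((BEven.w (2*c) h : ℕ) : ℤ) = ((x.natAbs^2 : ℕ) : ℤ) := by
    rw [h1, hx]; push_cast; rw [sq_abs]
  exact_mod_cast h2

theorem W_not_sq {y : ℤ} (hy : 2 ≤ y) {h : ℕ} (hh : 2 ≤ h) {c : ℤ} (hc : W y h = c^2) : False := by
  rcases Int.even_or_odd y with ⟨d, hd⟩ | ⟨d, hd⟩
  · have : y = 2*d := by omega
    subst this
    exact even_thm' (by omega) hh hc
  · subst hd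
    exact odd_thm' (by omega) (by omega) hc

lemma cop_tu (y : ℤ) (n : ℕ) : IsCoprime (t y n) (u y n) :=
  ⟨t y n, -((y^2-1) * u y n), by linear_combination pell y n⟩

lemma cop_uu (y : ℤ) (n : ℕ) : IsCoprime (u y (n+1)) (u y n) := by
  rw [u_succ]
  exact (cop_tu y n).add_mul_right_left y

lemma cop_uV (y : ℤ) (n : ℕ) : IsCoprime (u y (n+1)) (V y n) := by
  rw [V_eq]
  have h := (cop_uu y n).neg_right
  have := h.add_mul_left_right 1
  rw [mul_one] at this
  rw [show u y (n+1) - u y n = -u y n + u y (n+1) by ring]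
  exact this

lemma u_odd (y : ℤ) (n : ℕ) : Odd (u y (2*n+1)) := by
  induction n with
  | zero => simp
  | succ n ih =>
    obtain ⟨k, hk⟩ := ih
    refine ⟨y * u y (2*n+1+1) - k - 1, ?_⟩
    rw [show 2*(n+1)+1 = 2*n+1+2 by ring, u_two, hk]; ring

lemma t_even_odd (y : ℤ) (n : ℕ) : Odd (t y (2*n)) :=
  ⟨t y n ^2 - 1, by rw [t_double]; ring⟩

lemma cop_WV (y : ℤ) (l : ℕ) : IsCoprime (W y l) (V y l) := by
  have h1 : Odd (W y l) := by
    have := u_odd y l
    rw [← W_mul_V] at this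
    exact (Int.odd_mul.1 this).1
  have h2 : IsCoprime (W y l) 4 := by
    have h3 : IsCoprime (W y l) 2 := by
      obtain ⟨k, hk⟩ := h1
      exact ⟨1, -k, by rw [hk]; ring⟩
    have := h3.mul_right h3
    norm_num at this; exact this
  obtain ⟨c, d, hcd⟩ := h2
  have h4 : (4:ℤ) = ((y+1)*V y l - (y-1)*W y l)^2 - (y^2-1)*(W y l-V y l)^2 := by
    simp only [W, V]; linear_combination (-4) * pell y l
  refine ⟨c + d * ((y-1)^2 * W y l - 2*(y+1)*(y-1)*V y l - (y^2-1)*(W y l - 2*V y l)), d * ((y+1)^2 * V y l - (y^2-1)*V y l), ?_⟩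
  have h5 : d * 4 = d * (((y+1)*V y l - (y-1)*W y l)^2 - (y^2-1)*(W y l-V y l)^2) := by rw [← h4]
  linear_combination hcd - h5

lemma cop_Wy (y : ℤ) (h : ℕ) : IsCoprime (W y h) y := by
  have key : ∀ h : ℕ, IsCoprime (W y h) y ∧ IsCoprime (W y (h+1)) y := by
    intro h
    induction h with
    | zero =>
      refine ⟨by simpa using isCoprime_one_left, ?_⟩
      rw [zero_add, W_one]
      exact ⟨1, -2, by ring⟩
    | succ h ih =>
      refine ⟨ih.2, ?_⟩
      obtain ⟨a, b, hab⟩ := ih.1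
      refine ⟨-a, b + 2 * a * W y (h+1), ?_⟩
      rw [W_two]
      linear_combination hab
  exact (key h).1

lemma cop_WV' (y : ℤ) (h : ℕ) : IsCoprime (W y (h+1)) (V y h) := by
  have h1 : Odd (W y (h+1)) := by
    have h2 : Odd (W y (h+1) * V y h) := by
      rw [W_mul_V', u_double]
      exact ⟨t y (h+1) * u y (h+1), by ring⟩
    exact (Int.odd_mul.1 h2).1
  have h3 : IsCoprime (W y (h+1)) 2 := by
    obtain ⟨k, hk⟩ := h1
    exact ⟨1, -k, by rw [hk]; ring⟩
  have h4 : IsCoprime (W y (h+1)) (u y (h+1)) := by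
    rw [W]
    exact (cop_tu y (h+1)).add_mul_right_left (y+1)
  have h5 : IsCoprime (W y (h+1)) (2*y*u y (h+1)) := (h3.mul_right (cop_Wy y (h+1))).mul_right h4
  have h6 : V y h = -(2*y*u y (h+1)) + W y (h+1) * 1 := by
    rw [V_eq, W_eq, u_two]; ring
  rw [h6]
  exact h5.neg_right.add_mul_left_right 1

lemma sq_left {a b c : ℤ} (ha : 1 ≤ a) (h : IsCoprime a b) (e : a*b = c^2) : ∃ x, a = x^2 := by
  obtain ⟨x, hx | hx⟩ := Int.sq_of_isCoprime h e
  · exact ⟨x, hx⟩
  · exfalso; nlinarith [sq_nonneg x]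

lemma comp2 (y : ℤ) (i : ℕ) : t y (2*i) = t (2*y^2-1) i ∧ u y (2*i) = 2*y*u (2*y^2-1) i := by
  induction i with
  | zero => simp
  | succ i ih =>
    obtain ⟨h1, h2⟩ := ih
    have e2 : t y 2 = 2*y^2-1 := by rw [show 2 = 0+2 from rfl, t_two]; simp; ring
    have e3 : u y 2 = 2*y := by rw [show 2 = 0+2 from rfl, u_two]; simp
    rw [show 2*(i+1) = 2*i+2 by ring, t_add, u_add, h1, h2, e2, e3, t_succ, u_succ]
    constructor <;> ring

lemma comp2' (y : ℤ) (l : ℕ) : t y (2*l+1) = y * V (2*y^2-1) l := by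
  rw [t_succ, (comp2 y l).1, (comp2 y l).2, V]; ring

lemma sum_formula (y : ℤ) (j : ℕ) : 1 + u y (2*j+1) = 2 * u y (j+1) * t y j := by
  rw [show 2*j+1 = j+(j+1) by ring, u_add, t_succ, u_succ]
  linear_combination (-1) * pell y j

lemma exists_index {x y z : ℤ} (hx : 1 < x) (hy : 1 < y) (hz : 1 < z)
    (h : x^2 - 1 = (z^2-1)^2 * (y^2-1)) : ∃ k : ℕ, x = t y k ∧ z^2 - 1 = u y k := by
  obtain ⟨X, rfl⟩ : ∃ n : ℕ, x = (n:ℤ) := ⟨x.toNat, by omega⟩
  obtain ⟨a, rfl⟩ : ∃ n : ℕ, y = (n:ℤ) := ⟨y.toNat, by omega⟩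
  have hz2 : 0 ≤ z^2-1 := by nlinarith
  obtain ⟨Y, hY⟩ : ∃ n : ℕ, z^2-1 = (n:ℤ) := ⟨(z^2-1).toNat, by omega⟩
  have a1 : 1 < a := by exact_mod_cast hy
  rw [hY] at h ⊢
  have haa : 1 ≤ a*a := by nlinarith
  have hp : X*X - (a*a-1)*Y*Y = 1 := by
    have e : X*X = (a*a-1)*Y*Y + 1 := by
      zify [haa]
      linear_combination h
    omega
  obtain ⟨n, h1, h2⟩ := Pell.eq_pell a1 (x := X) (y := Y) hp
  refine ⟨n, ?_, ?_⟩
  · rw [h1]
    have key : ∀ n : ℕ, ((Pell.xn a1 n : ℕ) : ℤ) = t a n ∧ ((Pell.xn a1 (n+1) : ℕ) : ℤ) = t a (n+1) := by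
      intro n
      induction n with
      | zero => constructor
                · simp
                · rw [zero_add, Pell.xn_one]; simp
      | succ n ih =>
        refine ⟨ih.2, ?_⟩
        have := Pell.xn_succ_succ a1 n
        rw [t_two, ← ih.1, ← ih.2]
        have : ((Pell.xn a1 (n+2) + Pell.xn a1 n : ℕ) : ℤ) = ((2*a*Pell.xn a1 (n+1) : ℕ) : ℤ) := by
          exact_mod_cast this
        push_cast at this
        linarith
    exact (key n).1
  · rw [h2]
    have key : ∀ n : ℕ, ((Pell.yn a1 n : ℕ) : ℤ) = u a n ∧ ((Pell.yn a1 (n+1) : ℕ) : ℤ) = u a (n+1) := by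
      intro n
      induction n with
      | zero => constructor
                · simp
                · rw [zero_add, Pell.yn_one]; simp
      | succ n ih =>
        refine ⟨ih.2, ?_⟩
        have := Pell.yn_succ_succ a1 n
        rw [u_two, ← ih.1, ← ih.2]
        have : ((Pell.yn a1 (n+2) + Pell.yn a1 n : ℕ) : ℤ) = ((2*a*Pell.yn a1 (n+1) : ℕ) : ℤ) := by
          exact_mod_cast this
        push_cast at this
        linarith
    exact (key n).1

lemma two_odd_not_sq {m z : ℤ} (hm : Odd m) (h : z^2 = 2*m) : False := by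
  obtain ⟨k, rfl⟩ := hm
  rcases Int.even_or_odd z with ⟨d, rfl⟩ | ⟨d, rfl⟩
  · have : 2*(d*d) = 2*k+1 := by linarith
    omega
  · have : 2*(2*(d*d)+2*d) + 1 = 2*(2*k+1) := by linarith
    omega

/-- `u_i(Y)` square with `Y = 2y^2-1`, `i ≥ 2` is impossible -/
lemma u_sq_impossible {y : ℤ} (hy : 2 ≤ y) {i : ℕ} (hi : 2 ≤ i) {c : ℤ}
    (h : u (2*y^2-1) i = c^2) : False := by
  set Y := 2*y^2-1 with hYdef
  have hY : 2 ≤ Y := by nlinarith
  have hY1 : 1 ≤ Y := by omega
  rcases Nat.even_or_odd i with ⟨i', hi'⟩ | ⟨l, hl⟩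
  · -- even
    have hi2 : i = 2*i' := by omega
    rcases Nat.even_or_odd i' with ⟨q, hq⟩ | ⟨l, hl⟩
    · have hq2 : i' = 2*q := by omega
      have hq1 : 1 ≤ q := by omega
      subst hq2
      rw [hi2, u_double] at h
      -- 2 t_{2q} u_{2q} = c^2
      have hc2 : Even c := by
        have : Even (c^2) := ⟨t Y (2*q) * u Y (2*q), by rw [← h]; ring⟩
        exact (Int.even_pow' (by norm_num)).1 this
      obtain ⟨d, hd⟩ := hc2
      have h1 : t Y (2*q) * (t Y q * u Y q) = d^2 := by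
        have : 4 * (t Y (2*q) * (t Y q * u Y q)) = 4 * d^2 := by
          rw [u_double, hd] at h; linear_combination h
        linarith
      have c1 : IsCoprime (t Y (2*q)) (t Y q * u Y q) := by
        apply IsCoprime.mul_right
        · rw [t_double]; exact ⟨-1, 2*t Y q, by ring⟩
        · have := cop_tu Y (2*q)
          rw [u_double] at this
          exact this.of_mul_right_right
      obtain ⟨A, hA⟩ := sq_left (t_pos hY1 _) c1 h1
      have h2 : (t Y q * u Y q) * t Y (2*q) = d^2 := by rw [mul_comm]; exact h1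
      have hpos : 1 ≤ t Y q * u Y q := by
        have h3 := t_pos hY1 q
        have h4 := u_ge hY1 q
        have : (1:ℤ) ≤ q := by exact_mod_cast hq1
        nlinarith
      obtain ⟨B, hB⟩ := sq_left hpos c1.symm h2
      obtain ⟨s, hs⟩ := sq_left (t_pos hY1 q) (cop_tu Y q) hB
      -- t Y q = t y (2q) = 2 T^2 - 1
      have h5 := (comp2 y q).1
      rw [t_double, ← hYdef, hs] at h5
      have hT := t_ge_pow (by omega : 1 ≤ y) q
      have hT2 : 2 ≤ t y q := by
        have : y^1 ≤ y^q := pow_le_pow_right₀ (by omega) hq1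
        rw [pow_one] at this
        linarith
      rw [t_double, hs] at hA
      -- A^2 = 2 s^4 - 1,  s^2 = 2 T^2 - 1
      set T := t y q with hTdef
      have hs1 : T < |s| := by
        apply lt_abs.2
        by_contra hcon
        push Not at hcon
        have hh : s^2 ≤ T^2 := by
          apply sq_le_sq'
          · linarith
          · linarith
        nlinarith
      have hA2 : |A|^2 = (2*T*|s|)^2 - 4*T^2 + 1 := by
        rw [sq_abs, mul_pow, sq_abs, ← hA]
        rw [← h5]; ring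
      have u1 : |A| < 2*T*|s| := by
        have : |A|^2 < (2*T*|s|)^2 := by nlinarith
        exact lt_of_pow_lt_pow_left₀ 2 (by positivity) this
      have u2 : 2*T*|s| - 1 < |A| := by
        have : (2*T*|s|-1)^2 < |A|^2 := by nlinarith
        exact lt_of_pow_lt_pow_left₀ 2 (abs_nonneg _) this
      omega
    · -- i' odd
      rw [hi2, u_double, hl] at h
      have h1 : Odd (t Y (2*l+1) * u Y (2*l+1)) := by
        apply Odd.mul _ (u_odd Y l)
        have h2 : t Y (2*l+1) = 2 * (y^2-1) * W Y l^2 + 1 := by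
          have := t_odd Y l
          rw [hYdef] at this ⊢
          linarith
        exact ⟨(y^2-1) * W Y l^2, by rw [h2]; ring⟩
      exact two_odd_not_sq h1 (by rw [← h]; ring)
  · subst hl
    have hl1 : 1 ≤ l := by omega
    rw [← W_mul_V] at h
    obtain ⟨x, hx⟩ := sq_left (W_pos hY1 l) (cop_WV Y l) h
    have hYb : Y = 2*(y^2-1)+1 := by rw [hYdef]; ring
    rw [hYb] at hx
    exact odd_thm' (b := y^2-1) (by nlinarith) hl1 hx

theorem main {x y z : ℤ} (hx : 1 < x) (hy : 1 < y) (hz : 1 < z)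
    (h : x^2 - 1 = (z^2-1)^2 * (y^2-1)) :
    (∃ m : ℤ, 2 ≤ m ∧ x = m * (4 * m ^ 2 - 3) ∧ y = m ∧ z = 2 * m) ∨
    (∃ m : ℤ, 1 ≤ m ∧ x = 8 * m ^ 4 + 16 * m ^ 3 + 8 * m ^ 2 - 1 ∧
          y = 2 * m ^ 2 + 2 * m ∧ z = 2 * m + 1) := by
  obtain ⟨k, hxk, hzk⟩ := exists_index hx hy hz h
  have hy2 : 2 ≤ y := by omega
  have hy1 : 1 ≤ y := by omega
  rcases Nat.even_or_odd k with ⟨h', hk⟩ | ⟨j, hk⟩
  · have hk2 : k = 2*h' := by omega
    subst hk2
    match h', hk with
    | 0, _ => exfalso; simp at hzk; nlinarith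
    | 1, _ =>
      right
      have e2 : t y (2*1) = 2*y^2-1 := by rw [show 2*1 = 0+2 from rfl, t_two]; simp; ring
      have e3 : u y (2*1) = 2*y := by rw [show 2*1 = 0+2 from rfl, u_two]; simp
      rw [e3] at hzk
      rw [e2] at hxk
      rcases Int.even_or_odd z with ⟨d, hd⟩ | ⟨m, hm⟩
      · exfalso
        rw [hd] at hzk
        have : 2*(2*(d*d)) - 1 = 2*y := by linarith
        omega
      · refine ⟨m, by omega, ?_, ?_, hm⟩
        · have : y = 2*m^2+2*m := by rw [hm] at hzk; linarith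
          rw [hxk, this]; ring
        · rw [hm] at hzk; linarith
    | (n+2), _ =>
      exfalso
      have h1 : W y (n+1+1) * V y (n+1) = z^2 := by
        rw [W_mul_V']
        have : 2*(n+1+1) = 2*(n+2) := by ring
        rw [this, ← hzk]; ring
      obtain ⟨c, hc⟩ := sq_left (W_pos hy1 _) (cop_WV' y (n+1)) h1
      exact W_not_sq hy2 (by omega) hc
  · subst hk
    have hsum : z^2 = 2 * u y (j+1) * t y j := by
      rw [← sum_formula, ← hzk]; ring
    rcases Nat.even_or_odd j with ⟨j', hj⟩ | ⟨l, hl⟩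
    · exfalso
      have hj2 : j = 2*j' := by omega
      rw [hj2] at hsum
      have h1 : Odd (u y (2*j'+1) * t y (2*j')) := (u_odd y j').mul (t_even_odd y j')
      exact two_odd_not_sq h1 (by rw [hsum]; ring)
    · subst hl
      -- j = 2 l + 1,  i = l + 1
      have h1 : z^2 = (2*y)^2 * (u (2*y^2-1) (l+1) * V (2*y^2-1) l) := by
        rw [hsum, show 2*l+1+1 = 2*(l+1) by ring, (comp2 y (l+1)).2, comp2']; ring
      rcases Nat.eq_zero_or_pos l with h0 | h0
      · subst h0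
        left
        simp only [zero_add, u_one, V_zero, mul_one] at h1
        have hz2 : z = 2*y := by
          have := abs_eq_abs.2 (sq_eq_sq_iff_eq_or_eq_neg.1 h1)
          rwa [abs_of_pos (by omega), abs_of_pos (by omega)] at this
        refine ⟨y, hy2, ?_, rfl, hz2⟩
        rw [hxk]
        have e : t y (2*(2*0+1)+1) = 2*y*(2*y*(2*y*0+y) - 1) - y := by
          rw [show 2*(2*0+1)+1 = 1+2 from rfl, t_two, show 1+1 = 0+2 from rfl, t_two]; simp
        rw [e]; ring
      · exfalso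
        have hdvd : (2*y) ∣ z := by
          have : (2*y)^2 ∣ z^2 := ⟨_, h1⟩
          exact (Int.pow_dvd_pow_iff (by norm_num)).1 this
        obtain ⟨r, hr⟩ := hdvd
        have h2 : u (2*y^2-1) (l+1) * V (2*y^2-1) l = r^2 := by
          have h3 : (2*y)^2 ≠ 0 := by positivity
          apply mul_left_cancel₀ h3
          rw [← h1, hr]; ring
        have hY : (1:ℤ) ≤ 2*y^2-1 := by nlinarith
        have hu := u_ge hY (l+1)
        obtain ⟨c, hc⟩ := sq_left (by push_cast at hu; omega) (cop_uV (2*y^2-1) l) h2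
        exact u_sq_impossible hy2 (by omega) hc

end Pool.Agent.Helper24.BMain
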