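import Mathlib
import Pool.Agent.Helper601.Assembly

set_option autoImplicit false

namespace Pool.Agent.Helper24.FacFive

open Finset Pool.Agent.Helper601

/-- Block structure of every representation of length at most five for a generic `m = p u`:
the top block is `{m}` and the second block is `{p v}` with `v < u`. -/
theorem rep_structure {m b y y' a p u x X J G y₂ y₃ r₁ r₂ q : ℕ} {Ca : ℝ} (hR : Rep m b y y' a)
    (hp : p.Prime) (hm : m = p * u) (hsq : Squarefree u) (hZ : ∀ l ∈ u.primeFactors, 5 < l)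
    (hmx : m ≤ x)
    (hX1 : a ≤ X) (hX2 : m - b ≤ X) (hX3 : y - y' ≤ X) (hXp : X < p) (hmp : m < p ^ 2)
    (T : Finset ℕ) (hT : ∀ j ∈ T, 1 ≤ j ∧ j ≤ J ∧ ∃ Q : ℕ, Q.Prime ∧ y₂ < Q ∧ Q ∣ m - j)
    (hTJ : J < 6 * T.card) (hy₂ : u * (J + X) ≤ y₂) (hy₂m : x < (y₂ + 1) ^ 2)
    (hr₁ : r₁.Prime) (hr₁1 : p < r₁) (hr₁2 : r₁ ≤ p + G)
    (hr₂ : r₂.Prime) (hr₂1 : r₂ < p) (hr₂2 : p ≤ r₂ + G)
    (hmr : m < r₂ ^ 2) (hXr : X < r₂) (hJr : J ≤ r₂) (hJu : J ≤ u) (_ : 1 ≤ J)
    (hbig : G * (u + 1) + J < p)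
    (hCa : 0 < Ca)
    (habound : (a : ℝ) ≤ Ca * (((m : ℝ) - b) + ((y : ℝ) - y')) * Real.log x)
    (hlogx : 2 * Ca ≤ Real.log x)
    (hy₃ : Ca * ((J : ℝ) + ((2 * G * u : ℕ) : ℝ)) * Real.log x ≤ y₃)
    (hJy₃ : J ≤ y₃) (huy₃ : u * (1 + 2 * G * u) ≤ y₃)
    (hq : q.Prime) (hq1 : y₃ < q) (hq2 : q ∣ m - 1) (hq3 : ¬ q ^ 2 ∣ m - 1)
    (hpx : (x : ℝ) ^ (1 - 1 / 5000 : ℝ) < (p : ℝ))
    (hsx : ((2 * G * u : ℕ) : ℝ) ≤ (x : ℝ) ^ (1 / 2500 : ℝ))
    (htop : ¬ TopBad x m) :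
    ∃ v, 1 ≤ v ∧ v < u ∧ IsSquare (u * v * a.factorial) := by
  have hR' := hR
  obtain ⟨g1, g2, g3, g4, g5⟩ := hR'
  have hlog0 : 0 < Real.log x := by linarith
  -- top block short
  have ht : m - b ≤ J := by
    apply det_top (Z := 5) hR hp hm hmp hX1 hX2 hX3 hXp hsq hZ T _ hTJ
    intro j hj
    obtain ⟨k1, k2, Q, k3, k4, k5⟩ := hT j hj
    refine ⟨k1, k2, Q, k3, by omega, ?_, k5⟩
    have : (y₂ + 1) ^ 2 ≤ Q ^ 2 := Nat.pow_le_pow_left k4 2
    omega
  obtain ⟨v, hv1, hvu, hv2, hv3⟩ := exists_v hR hp hm hmp (by omega) (by omega) (by omega)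
  -- second block short
  have hs : y - y' ≤ 2 * G * u :=
    det_gap hR hm hX1 hX3 ht hv1 hvu hv2 hv3 hr₁ hr₁1 hr₁2 hr₂ hr₂1 hr₂2 hmr hXr hJr hJu hbig
  have htr : (m : ℝ) - b ≤ J := by
    rw [← Nat.cast_sub g4.le]; exact_mod_cast ht
  have hsr : (y : ℝ) - y' ≤ ((2 * G * u : ℕ) : ℝ) := by
    rw [← Nat.cast_sub g2]; exact_mod_cast hs
  have ha : a ≤ y₃ := by
    have e1 : (a : ℝ) ≤ y₃ := by
      refine habound.trans (le_trans ?_ hy₃)
      apply mul_le_mul_of_nonneg_right _ hlog0.le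
      apply mul_le_mul_of_nonneg_left _ hCa.le
      linarith
    exact_mod_cast e1
  have hm2 : 2 ≤ m := by omega
  have hb : b = m - 1 :=
    det_one hR hm ht hs hv1 hvu hv2 hv3 hq hq2 hq3 (by omega) (by omega) (by omega) hm2
  subst hb
  have hsquare := JobK.square_of_top_one m y y' a (by omega) g2 g5
  by_cases hs1 : y' + 2 ≤ y
  · exfalso
    apply htop
    have hy2 : (2 : ℝ) ≤ (y : ℝ) - y' := by
      have : (y' : ℝ) + 2 ≤ y := by exact_mod_cast hs1
      linarith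
    refine ⟨p, u, v, y', y, a, hp, hm, hsq, hpx, hv1, hvu, hv2, hv3, hs1, hsr.trans hsx, ?_,
      hsquare⟩
    have e0 : (m : ℝ) - ((m - 1 : ℕ) : ℝ) = 1 := by
      rw [Nat.cast_sub (by omega)]; push_cast; ring
    rw [e0] at habound
    have e1 : Ca * (1 + ((y : ℝ) - y')) ≤ Ca * (2 * ((y : ℝ) - y')) :=
      mul_le_mul_of_nonneg_left (by linarith) hCa.le
    have e2 : 2 * Ca * ((y : ℝ) - y') ≤ Real.log x * ((y : ℝ) - y') :=
      mul_le_mul_of_nonneg_right hlogx (by linarith)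
    calc (a : ℝ) ≤ Ca * (1 + ((y : ℝ) - y')) * Real.log x := habound
      _ ≤ Real.log x * ((y : ℝ) - y') * Real.log x := by
          apply mul_le_mul_of_nonneg_right _ hlog0.le
          linarith
      _ = _ := by ring
  · have hy : y = p * v := by omega
    have hy' : y' = p * v - 1 := by omega
    have hpv : 1 ≤ p * v := by omega
    have hIoc : Finset.Ioc y' y = {p * v} := by
      ext n
      rw [Finset.mem_Ioc, Finset.mem_singleton]
      omega
    rw [hIoc, Finset.prod_singleton, hm] at hsquare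
    refine ⟨v, hv1, hvu, ?_⟩
    obtain ⟨r, hr⟩ := hsquare
    have e1 : p ^ 2 * (u * v * a.factorial) = r ^ 2 := by
      rw [pow_two r, ← hr]; ring
    have e2 : p ∣ r := by
      have : p ^ 2 ∣ r ^ 2 := ⟨_, e1.symm⟩
      exact (Nat.pow_dvd_pow_iff (by norm_num)).1 this
    obtain ⟨k, rfl⟩ := e2
    have e3 : p ^ 2 * (u * v * a.factorial) = p ^ 2 * (k * k) := by rw [e1]; ring
    exact ⟨k, Nat.eq_of_mul_eq_mul_left (pow_pos hp.pos 2) e3⟩

/-- A squarefree number times a smaller positive number is never a square. -/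
theorem not_isSquare_mul {u v : ℕ} (hu : Squarefree u) (hv1 : 1 ≤ v) (hvu : v < u) :
    ¬ IsSquare (u * v) := by
  rintro ⟨r, hr⟩
  have h1 : u ∣ r ^ 2 := ⟨v, by rw [sq, ← hr]⟩
  have h2 : u ∣ r := (hu.dvd_pow_iff_dvd (by norm_num)).1 h1
  obtain ⟨k, rfl⟩ := h2
  have h3 : u * v = u * (u * k * k) := by rw [hr]; ring
  have h4 : v = u * k * k := Nat.eq_of_mul_eq_mul_left (by omega) h3
  rcases Nat.eq_zero_or_pos k with hk | hk
  · subst hk; omega
  · have : u * 1 * 1 ≤ u * k * k := by gcongr <;> omega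
    omega

/-- Representations of length at most four in block form, with last argument `0`. -/
theorem rep_of_hasRepresentation (m j : ℕ) (hj2 : 2 ≤ j) (hj : j < 5)
    (h : N140ae710.HasRepresentation m j) :
    ∃ b y y' : ℕ, y' ≤ y ∧ y ≤ b ∧ b < m ∧
      IsSquare (m.factorial * b.factorial * y.factorial * y'.factorial *
        (0 : ℕ).factorial) := by
  obtain ⟨s, hs, hm, hle, hsq⟩ := h
  have hsq' : IsSquare (m.factorial * ∏ a ∈ s.erase m, a.factorial) := by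
    rw [Finset.mul_prod_erase s (fun a => a.factorial) hm]; exact hsq
  have hlt : ∀ a ∈ s.erase m, a < m := fun a ha =>
    lt_of_le_of_ne (hle a (Finset.mem_of_mem_erase ha)).2 (Finset.ne_of_mem_erase ha)
  have hc : (s.erase m).card = (j - 2) + 1 := by
    rw [Finset.card_erase_of_mem hm, hs]; omega
  generalize s.erase m = T at *
  obtain ⟨b, hb, hb1, hb2, hb3⟩ := JobK.pick_max T _ hc
  rw [hb3] at hsq'
  have hbm := hlt b hb
  generalize T.erase b = T1 at *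
  rcases Nat.eq_zero_or_pos (j - 2) with h0 | h0
  · rw [h0, Finset.card_eq_zero] at hb2
    subst hb2
    refine ⟨b, 0, 0, le_refl _, Nat.zero_le _, hbm, ?_⟩
    simpa using hsq'
  obtain ⟨c, hc0, hc1, hc2, hc3⟩ := JobK.pick_max T1 (j - 3) (by omega)
  rw [hc3] at hsq'
  have hcb := hb1 c hc0
  generalize T1.erase c = T2 at *
  rcases Nat.eq_zero_or_pos (j - 3) with h0 | h0
  · rw [h0, Finset.card_eq_zero] at hc2
    subst hc2
    refine ⟨b, c, 0, Nat.zero_le _, hcb, hbm, ?_⟩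
    simpa [mul_assoc] using hsq'
  obtain ⟨d, hd0, hd1, hd2, hd3⟩ := JobK.pick_max T2 (j - 4) (by omega)
  rw [hd3] at hsq'
  have hdc := hc1 d hd0
  have h0 : j - 4 = 0 := by omega
  rw [h0, Finset.card_eq_zero] at hd2
  refine ⟨b, c, d, hdc, hcb, hbm, ?_⟩
  rw [hd2] at hsq'
  simpa [mul_assoc] using hsq'

/-- The five factor identity with smallest argument `7`. -/
theorem hasRepresentation_five (p w : ℕ) (hw : 1 ≤ w) (hp : 2 ≤ p) :
    N140ae710.HasRepresentation (p * (7 * w)) 5 := by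
  have hpw : p ≤ p * w := by nlinarith
  set n := p * w with hn
  have hm : p * (7 * w) = 7 * n := by rw [hn]; ring
  rw [hm]
  have hd1 : (7 : ℕ) ∉ (∅ : Finset ℕ) := Finset.notMem_empty _
  have hd2 : 5 * n - 1 ∉ ({7} : Finset ℕ) := by simp; omega
  have hd3 : 5 * n ∉ ({5 * n - 1, 7} : Finset ℕ) := by simp; omega
  have hd4 : 7 * n - 1 ∉ ({5 * n, 5 * n - 1, 7} : Finset ℕ) := by simp; omega
  have hd5 : 7 * n ∉ ({7 * n - 1, 5 * n, 5 * n - 1, 7} : Finset ℕ) := by simp; omega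
  refine ⟨{7 * n, 7 * n - 1, 5 * n, 5 * n - 1, 7}, ?_, ?_, ?_, ?_⟩
  · rw [Finset.card_insert_of_notMem hd5, Finset.card_insert_of_notMem hd4,
      Finset.card_insert_of_notMem hd3, Finset.card_insert_of_notMem hd2,
      Finset.card_singleton]
  · simp
  · intro a ha
    simp only [Finset.mem_insert, Finset.mem_singleton] at ha
    omega
  · rw [Finset.prod_insert hd5, Finset.prod_insert hd4, Finset.prod_insert hd3,
      Finset.prod_insert hd2, Finset.prod_singleton]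
    refine ⟨420 * n * (7 * n - 1).factorial * (5 * n - 1).factorial, ?_⟩
    have e1 : (7 * n).factorial = (7 * n) * (7 * n - 1).factorial :=
      (Nat.mul_factorial_pred (by omega)).symm
    have e2 : (5 * n).factorial = (5 * n) * (5 * n - 1).factorial :=
      (Nat.mul_factorial_pred (by omega)).symm
    have e3 : (7 : ℕ).factorial = 5040 := by decide
    rw [e1, e2, e3]
    ring

end Pool.Agent.Helper24.FacFive
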